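import Pool.Agent.Work.MP_db9079_lc.PH.AxR
import Pool.Agent.Work.MP_db9079_lc.PH.AxC

/-!
The axioms for an algebraically closed residue field, as formulas and as properties.
-/

namespace Pool.Agent.PA

open Polynomial Pool.Agent.PH Pool.Agent.Lib.RelComp Pool.Agent.Work.MP_db9079_lc

/-- Characteristic, the constant, perfectness. -/
def axA2 (p : ℕ) : ℕ :=
  fc (fe (num p) tz) (fc (fx (sc 0) (fe (vs 0) tt)) (fc (fn (fe tt tz)) (fc (flt tt t1)
    (fa (sc 0) (fx (sc 1) (fe (tp (vs 1) p) (vs 0)))))))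

/-- The residue field is algebraically closed. -/
def axR (d : ℕ) : ℕ :=
  allB 1 (fi (intB 1 (d + 1))
    (fx (sc 0) (fc (fr (vs 0) t1) (flt (mon 1 (vs 0) (d + 1)) t1)))) (d + 1)

/-- The algebraic part. -/
def axE2 (p d e m : ℕ) : ℕ :=
  allB 1 (fi (andR (fun i => exB 2 (fc (fixB p 2 e) (fe (vr 1 i) (hor 2 tt e))) e) d)
    (fa (sc 0) (fi (fe (mon 1 (vs 0) d) tz)
      (exB 3 (fc (fixB (p ^ d.factorial) 3 m)
        (fr (ta (tp (vs 0) (p ^ d)) (tn (hor 3 tt m))) (tp tt m))) m)))) d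

/-- The list of all axioms. -/
def ax2 (p n : ℕ) : ℕ :=
  if n % 8 = 0 then axF.getD (n / 8) (fn ff)
  else if n % 8 = 1 then fc (axA2 p) (axR (n / 8))
  else if n % 8 = 2 then axH (n / 8)
  else if n % 8 = 3 then (if n / 8 % p = 0 then fn ff else axV (n / 8))
  else if n % 8 = 4 then axD (n / 8)
  else if n % 8 = 5 then axB (n / 8).unpair.1 (n / 8).unpair.2
  else if n % 8 = 6 then axC p (n / 8)
  else axE2 p (n / 8).unpair.1 (n / 8).unpair.2.unpair.1 (n / 8).unpair.2.unpair.2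

/-- The residue field is algebraically closed. -/
def PR (A : PM) (d : ℕ) : Prop :=
  ∀ f, Cf (fun x => x ∈ A.M ∧ x ∈ A.O) (d + 1) f →
    ∃ x ∈ A.M, x ∈ A.O ∧ A.O.valuation ((X ^ (d + 1) + f).eval x) < 1

/-- The algebraic part. -/
def PE2 (p : ℕ) (A : PM) (d e m : ℕ) : Prop :=
  ∀ f, Cf (· ∈ A.M) d f →
    (∀ i < d, ∃ g, Cf (fun x => x ∈ A.M ∧ x ^ p = x) e g ∧ f.coeff i = g.eval A.t) →
    ∀ x ∈ A.M, (X ^ d + f).eval x = 0 →
      ∃ g, Cf (fun x => x ∈ A.M ∧ x ^ p ^ d.factorial = x) m g ∧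
        A.O.valuation (x ^ p ^ d - g.eval A.t) ≤ A.O.valuation (A.t ^ m)

/-- The axioms as properties. -/
structure Good (p : ℕ) (A : PM) : Prop where
  char : (p : A.Ω) = 0
  tM : A.t ∈ A.M
  t0 : A.t ≠ 0
  t1 : A.O.valuation A.t < 1
  perf : ∀ x ∈ A.M, ∃ y ∈ A.M, y ^ p = x
  res : ∀ d, PR A d
  hen : ∀ d, PHe A d
  vmod : ∀ n, n % p ≠ 0 → PV A n
  den : ∀ n, PD A n
  tame : ∀ d e, PB A d e
  lines : ∀ d, PC p A d
  alg : ∀ d e m, PE2 p A d e m

section
variable (A : PM) (e : ℕ → A.Ω)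

theorem sat_axR (d : ℕ) : A.str.Sat (axR d) e ↔ PR A d := by
  simp only [axR, PR, sat_allB, sat_fi, sat_intB, sat_flt, sat_fx, sat_fc, sat_fr,
    ev_vs, ev_t1, ev_mon, cf_and A.O.zero_mem, and_imp, map_one,
    ValuationSubring.valuation_le_one_iff]
  refine forall_congr' fun f => forall_congr' fun hf => ?_
  simp (disch := omega) only [pol_update, pol_updB_self _ _ hf.1, Function.update_self]
  refine imp_congr_left (forall_congr' fun i => forall_congr' fun hi => ?_)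
  rw [updB_self _ _ _ hi]

theorem sat_axE2 (p d n m : ℕ) (hp : p ≠ 0) :
    A.str.Sat (axE2 p d n m) e ↔ PE2 p A d n m := by
  simp only [axE2, PE2, sat_allB, sat_exB, sat_andR, sat_fi, sat_fa, sat_fe, sat_fc, sat_fr,
    sat_fixB, ev_ta, ev_tn, ev_hor, ev_mon, ev_tp, ev_vs, ev_vr, ev_tt, ev_tz,
    cf_and (T := fun x : A.Ω => x ^ p = x) (zero_pow hp),
    cf_and (T := fun x : A.Ω => x ^ p ^ d.factorial = x) (zero_pow (pow_ne_zero _ hp)),
    and_assoc, sub_eq_add_neg]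
  refine forall_congr' fun f => forall_congr' fun hf => ?_
  simp (disch := omega) only [updB_ne, updB_sc, pol_update, pol_updB_self _ _ hf.1,
    Function.update_self, AxR_fix]
  refine imp_congr (forall₂_congr fun i hi => exists_congr fun g => and_congr_right fun hg => ?_)
    (forall₃_congr fun x _ _ => exists_congr fun g => and_congr_right fun hg => ?_)
  · rw [pol_updB_self _ _ hg.1, updB_self _ _ _ hi]
  · rw [pol_updB_self _ _ hg.1]

theorem sat_axA2 (p : ℕ) : A.str.Sat (axA2 p) e ↔ (p : A.Ω) = 0 ∧ A.t ∈ A.M ∧ A.t ≠ 0 ∧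
    A.O.valuation A.t < 1 ∧ (∀ x ∈ A.M, ∃ y ∈ A.M, y ^ p = x) := by
  simp (disch := omega) only [axA2, sat_fa, sat_fn, sat_fe, sat_fx, sat_fc, sat_flt,
    ev_num, ev_vs, ev_tz, ev_t1, ev_tp, ev_tt, Function.update_self, update_sc_sc,
    ne_eq, map_one, exists_eq_right]

end

theorem good_iff (A : PM) (p : ℕ) : Good p A ↔ ∀ n, A.str.Sat (ax2 p n) (fun _ => 0) := by
  have h0 : (∀ x ∈ A.M, ∃ y ∈ A.M, y ^ p = x) → p ≠ 0 := by
    rintro h rfl
    obtain ⟨y, -, hy⟩ := h 0 A.M.zero_mem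
    exact one_ne_zero ((pow_zero y).symm.trans hy)
  constructor
  · intro h n
    have hM := infinite_M A h.tM h.t0 h.t1
    unfold ax2
    split_ifs with a0 a1 a2 a3 a4 a5 a6 a7
    · exact sat_axF A _ _
    · rw [sat_fc]
      exact ⟨(sat_axA2 A _ p).2 ⟨h.char, h.tM, h.t0, h.t1, h.perf⟩, (sat_axR A _ _).2 (h.res _)⟩
    · exact (sat_axH A _ _).2 (h.hen _)
    · rw [sat_fn, sat_ff]
      exact not_false
    · exact (sat_axV A _ _).2 (h.vmod _ a4)
    · exact (sat_axD A _ _).2 (h.den _)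
    · exact (sat_axB A _ hM _ _).2 (h.tame _ _)
    · exact (sat_axC A _ hM _ _).2 (h.lines _)
    · exact (sat_axE2 A _ _ _ _ _ (h0 h.perf)).2 (h.alg _ _ _)
  · intro h
    have k : ∀ m r, r < 8 → (8 * m + r) % 8 = r ∧ (8 * m + r) / 8 = m := fun m r hr => by omega
    have k1 : ∀ d, A.str.Sat (axA2 p) (fun _ => 0) ∧ PR A d := fun d => by
      have k2 := h (8 * d + 1)
      rwa [ax2, if_neg (by omega), if_pos (by omega), sat_fc, (k d 1 (by omega)).2, sat_axR] at k2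
    obtain ⟨c1, c2, c3, c4, c5⟩ := (sat_axA2 A _ p).1 (k1 0).1
    have hM := infinite_M A c2 c3 c4
    refine ⟨c1, c2, c3, c4, c5, fun d => (k1 d).2, fun d => ?_, fun n hn => ?_, fun n => ?_,
      fun d n => ?_, fun d => ?_, fun d n m => ?_⟩
    · simpa [ax2, k d 2 (by omega), sat_axH] using h (8 * d + 2)
    · simpa [ax2, k n 3 (by omega), hn, sat_axV] using h (8 * n + 3)
    · simpa [ax2, k n 4 (by omega), sat_axD] using h (8 * n + 4)
    · simpa [ax2, k (Nat.pair d n) 5 (by omega), sat_axB A _ hM] using h (8 * Nat.pair d n + 5)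
    · simpa [ax2, k d 6 (by omega), sat_axC A _ hM] using h (8 * d + 6)
    · simpa [ax2, k (Nat.pair d (Nat.pair n m)) 7 (by omega), sat_axE2 A _ p _ _ _ (h0 c5)] using
        h (8 * Nat.pair d (Nat.pair n m) + 7)

theorem elem_good {p : ℕ} {A B : PM} {e : A.Ω →+* B.Ω} (h : Elem A B e) :
    Good p B ↔ Good p A := by
  simp only [good_iff, h.sat0]

section
variable {α : Type} [Primcodable α] {O : Set (ℕ →. ℕ)} {f g h : α → ℕ}

@[fun_prop] theorem AxC_axR (hf : CI O f) : CI O (fun a => axR (f a)) := by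
  unfold axR
  fun_prop

@[fun_prop] theorem AxC_axE2 (p : ℕ) (hf : CI O f) (hg : CI O g) (hh : CI O h) :
    CI O (fun a => axE2 p (f a) (g a) (h a)) := by
  unfold axE2
  fun_prop

end

theorem ci_ax2 (p : ℕ) : CI ∅ (ax2 p) := by
  unfold ax2
  fun_prop

end Pool.Agent.PA
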