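import Pool.Agent.Work.MP_db9079_lc.PA.MOD
import Pool.Agent.Work.MP_db9079_lc.PH.BASE
import Pool.Agent.Work.MP_db9079_lc.PH.FLDb

/-!
The initial state and saturated extensions.
-/

namespace Pool.Agent.PA

open Polynomial IntermediateField Pool.Agent.PH

variable {p : ℕ} [Fact p.Prime] {A B : PM}

theorem arch_t (h : Good p A) {y : A.Ω} (hy : IsAlgebraic (Subring.closure {A.t}) y)
    (hm : ∀ m : ℕ, A.O.valuation y ≤ A.O.valuation (A.t ^ m)) : y = 0 := by
  have := h.charP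
  by_contra h0
  obtain ⟨u, hu, r, hr, e⟩ := hy.exists_nonzero_eq_adjoin_mul (mem_nonZeroDivisors_of_ne_zero h0)
  have htO : A.t ∈ A.O := (A.O.valuation_le_one_iff _).1 h.t1.le
  have hR : Subring.closure {A.t} ≤ A.O.toSubring :=
    Subring.closure_le.2 (Set.singleton_subset_iff.2 htO)
  have hyO : y ∈ A.O := (A.O.valuation_le_one_iff _).1 (by simpa using hm 0)
  have huO : u ∈ A.O := by
    clear e
    induction hu using Algebra.adjoin_induction with
    | mem x hx => rw [Set.mem_singleton_iff.1 hx]; exact hyO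
    | algebraMap r => exact hR r.2
    | add x y _ _ hx hy => exact add_mem hx hy
    | mul x y _ _ hx hy => exact mul_mem hx hy
  obtain ⟨P, hP⟩ := BASE_rep r.2
  have hr0 : (r : A.Ω) ≠ 0 := fun h1 => hr (Subtype.ext h1)
  obtain ⟨m, h1⟩ := BASE_poly (p := p) A.O h.t1 _ P (Nat.lt_succ_self _) (by rwa [hP])
  rw [hP] at h1
  have h2 : A.O.valuation (r : A.Ω) ≤ A.O.valuation y := by
    have e' : (r : A.Ω) = y * u := e.symm
    rw [e', map_mul]
    exact mul_le_of_le_one_right' ((A.O.valuation_le_one_iff _).2 huO)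
  have h3 : A.O.valuation (A.t ^ (m + 1)) < A.O.valuation (A.t ^ m) := by
    rw [pow_succ, map_mul]
    exact mul_lt_of_lt_one_right ((Valuation.pos_iff _).2 (pow_ne_zero _ h.t0)) h.t1
  exact absurd ((h1.trans h2).trans (hm (m + 1))) (not_le.2 h3)

omit [Fact p.Prime] in
theorem BASE_inM (h : Good p A) {k : Type*} [Field k] (i : k →+* A.Ω) {t : k} (ti : i t = A.t)
    {r : k} (hr : r ∈ Subring.closure {t}) : i r ∈ A.M := by
  have hle : Subring.closure {t} ≤ A.M.toSubring.comap i :=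
    Subring.closure_le.2 (Set.singleton_subset_iff.2 (by
      rw [SetLike.mem_coe, Subring.mem_comap, ti]; exact h.tM))
  exact hle hr

theorem BASE_root (h : Good p A) (s : ℕ) : ∀ {x : A.Ω}, x ^ p ^ s ∈ A.M → x ∈ A.M := by
  have := h.charP
  induction s with
  | zero => intro x hx; simpa using hx
  | succ s ih =>
    intro x hx
    obtain ⟨y, hy, e⟩ := h.perf _ hx
    rw [pow_succ, pow_mul] at e
    have e' : y = x ^ p ^ s := frobenius_inj A.Ω p e
    exact ih (e' ▸ hy)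

theorem BASE_pre2 {k F : Type*} [Field k] [IsAlgClosed k] [Field F] (i : k →+* F) {t : k} {s : F}
    (h : i t = s) {q : ℕ} (hq : 1 < q) {b : F} (hb : b ∈ Subring.closure (insert s {y | y ^ q = y})) :
    ∃ b₀ ∈ Subring.closure (insert t {y : k | y ^ q = y}), i b₀ = b := by
  have h1 : Subring.closure (insert s {y | y ^ q = y}) ≤
      (Subring.closure (insert t {y : k | y ^ q = y})).map i := by
    refine Subring.closure_le.2 ?_
    rintro y (rfl | hy)
    · exact ⟨t, Subring.subset_closure (Set.mem_insert _ _), h⟩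
    · obtain ⟨y₀, rfl⟩ := FLDb_root i (P := X ^ q - X) (y := y)
        (monic_X_pow_sub (by rw [degree_X]; exact_mod_cast hq)).ne_zero (by
          rw [Polynomial.map_sub, Polynomial.map_pow, map_X, eval_sub, eval_pow, eval_X]
          exact sub_eq_zero.2 hy)
      exact ⟨y₀, Subring.subset_closure (Set.mem_insert_of_mem _
        (i.injective ((map_pow i _ _).trans hy))), rfl⟩
  exact h1 hb

theorem BASE_inM2 (h : AG p A) {k : Type*} [Field k] (i : k →+* A.Ω) {t : k} (ti : i t = A.t)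
    {e : ℕ} (he : e ≠ 0) {r : k} (hr : r ∈ Subring.closure (insert t {y : k | y ^ p ^ e = y})) :
    i r ∈ A.M := by
  have hle : Subring.closure (insert t {y : k | y ^ p ^ e = y}) ≤ A.M.toSubring.comap i := by
    refine Subring.closure_le.2 ?_
    rintro y (rfl | hy)
    · change i y ∈ A.M
      rw [ti]
      exact h.good.tM
    · exact h.algM he ((map_pow i _ _).symm.trans (congrArg i hy))
  exact hle hr

theorem base_mem (hA : AG p A) (hB : AG p B) {k : Type*} [Field k] [IsAlgClosed k]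
    (i : k →+* A.Ω) (j : k →+* B.Ω)
    (hO : ∀ a, i a ∈ A.O ↔ j a ∈ B.O) {t : k} (ti : i t = A.t) (tj : j t = B.t) {g : k}
    (hg : IsAlgebraic (Subring.closure {t}) g) (h : i g ∈ A.M) : j g ∈ B.M := by
  obtain ⟨r, hr0, hint⟩ := hg.exists_integral_multiple
  have e0 : r • g = (r : k) * g := rfl
  rw [e0] at hint
  have hr : (r : k) ≠ 0 := fun h1 => hr0 (Subtype.ext h1)
  obtain ⟨s, e, he, hs⟩ := hA.good.algpart (x := i ((r : k) * g))
    (by rw [map_mul]; exact mul_mem (BASE_inM hA.good i ti r.2) h) (BASE_int_map i ti hint)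
  have hi : VP (A.O.comap i) A.O i := vp_comap _ _
  have hj : VP (A.O.comap i) B.O j := fun a => (hO a).symm
  have hy : IsIntegral (Subring.closure {B.t}) (j ((r : k) * g) ^ p ^ s) :=
    (BASE_int_map j tj hint).pow _
  have hfix : ∀ σ : B.Ω ≃ₐ[B.M] B.Ω, σ (j ((r : k) * g) ^ p ^ s) = j ((r : k) * g) ^ p ^ s := by
    intro σ
    have hσ : ∀ x ∈ B.M, σ x = x := fun x hx => σ.commutes ⟨x, hx⟩
    have hv : VP B.O B.O (σ : B.Ω →+* B.Ω) := hB.hensel σ
    have hy' := BASE_int_map (σ : B.Ω →+* B.Ω) (hσ _ hB.good.tM) hy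
    refine sub_eq_zero.1 (arch_t hB.good (hy'.sub hy).isAlgebraic fun m => ?_)
    obtain ⟨b, hb, hb'⟩ := hs m
    obtain ⟨b₀, hb₀, rfl⟩ := BASE_pre2 i ti (Nat.one_lt_pow he (Fact.out : p.Prime).one_lt) hb
    rw [← ti, ← map_pow, ← map_pow, ← map_sub, hi.le, ← hj.le, map_sub, map_pow j, map_pow j,
      tj] at hb'
    have h1 := (hv.le _ _).2 hb'
    have h2 : (σ : B.Ω →+* B.Ω) (B.t ^ m) = B.t ^ m := hσ _ (pow_mem hB.good.tM m)
    have h3 : (σ : B.Ω →+* B.Ω) (j b₀) = j b₀ := hσ _ (BASE_inM2 hB j tj he hb₀)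
    rw [h2, map_sub (σ : B.Ω →+* B.Ω), h3] at h1
    rw [← sub_sub_sub_cancel_right _ _ (j b₀)]
    exact Valuation.map_sub_le _ h1 hb'
  have := hB.ac
  have := hB.alg
  have := hB.good.perfect
  obtain ⟨z, hz⟩ := fix_range hfix
  have h1 : j ((r : k) * g) ∈ B.M := BASE_root hB.good s (hz ▸ z.2)
  have h2 : j g = (j r)⁻¹ * j ((r : k) * g) := by
    rw [map_mul, inv_mul_cancel_left₀ ((map_ne_zero j).2 hr)]
  rw [h2]
  exact mul_mem (inv_mem (BASE_inM hB.good j tj r.2)) h1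

theorem BASE_emb (h : AG p A) : Nonempty (AlgebraicClosure (ZMod p) →+* A.Ω) := by
  have := h.good.charP
  have := h.ac
  let _ : Algebra (ZMod p) A.Ω := ZMod.algebra _ p
  exact ⟨(IsAlgClosed.lift : AlgebraicClosure (ZMod p) →ₐ[ZMod p] A.Ω)⟩

theorem base_state (hA : AG p A) (hB : AG p B) : Nonempty (St A B) := by
  obtain ⟨ψ⟩ := BASE_emb hA
  obtain ⟨φ⟩ := BASE_emb hB
  have := hA.ac
  have := hB.ac
  let _ : Algebra (AlgebraicClosure (ZMod p)) A.Ω := ψ.toAlgebra
  obtain ⟨T, x, hx, hT, halg, -, hcnt⟩ := exists_acl1 (k := AlgebraicClosure (ZMod p)) A.t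
  have hc : Countable (AlgebraicClosure (ZMod p)) := by
    rw [← Cardinal.mk_le_aleph0_iff]
    refine (Algebra.IsAlgebraic.cardinalMk_le_max (ZMod p) _).trans (max_le ?_ le_rfl)
    exact Cardinal.mk_le_aleph0
  have := hcnt hc
  have hv := vp_comap A.O (algebraMap T A.Ω)
  have ti : algebraMap T A.Ω x = A.t := hx
  have h0 : x ≠ 0 := fun h => hA.good.t0 (by rw [← ti, h, map_zero])
  have h1 : (A.O.comap (algebraMap T A.Ω)).valuation x < 1 := by
    rw [← hv.lt_one, ti]; exact hA.good.t1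
  obtain ⟨j, hj, -, tj⟩ := vt_ext (A.O.comap (algebraMap T A.Ω)) B.O (y := x)
    (BASE_ne _ _ h0 h1) halg φ (fun a => iff_of_true (BASE_mem _ _ a) (BASE_mem _ _ a))
    (BASE_ne _ φ hB.good.t0 hB.good.t1)
    fun a => (BASE_lt _ _ h1 a).trans (BASE_lt _ φ hB.good.t1 a).symm
  have hO : ∀ a, algebraMap T A.Ω a ∈ A.O ↔ j a ∈ B.O := fun a => (hj a).symm
  have hg := BASE_alg x halg
  refine ⟨⟨T, algebraMap T A.Ω, j, fun a => ⟨base_mem hA hB _ _ hO ti tj (hg a),
    base_mem hB hA _ _ (fun a => (hO a).symm) tj ti (hg a)⟩, hO, x, ti, tj, ⟨fun a => ?_⟩,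
    fr_step halg ?_⟩⟩
  · have hle : Subring.closure {x} ≤ (A.M.comap (algebraMap T A.Ω)).toSubring :=
      fun r hr => BASE_inM hA.good _ ti hr
    exact (hg a).ringHom_of_comp_eq (Subring.inclusion hle) (RingHom.id T)
      (Subring.inclusion_injective hle) rfl
  · rintro ⟨g, hg⟩
    obtain ⟨h2, h3, -⟩ := hg 0
    rw [← (vp_comap _ _).lt_one, BASE_one _ _ h2] at h3
    exact lt_irrefl _ h3

omit [Fact p.Prime] in
/-- The algebraic part of the ultrapower. -/
theorem exists_sat (hB : AG p B) : ∃ (C : PM) (e : B.Ω →+* C.Ω)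
    (e' : C.Ω →+* B.ult.Ω), AG p C ∧ Elem B C e ∧ Elem C B.ult e' ∧ e'.comp e = B.diag ∧
      (∀ x, IsAlgebraic B.ult.M x → x ∈ e'.range) ∧ Satur C.M C.O := by
  have := hB.ac
  have := hB.alg
  have : IsAlgClosed B.ult.Ω := ult_algClosed B.Ω
  have hd := elem_diag B
  have hg := (elem_good hd).2 hB.good
  obtain ⟨C, e', h1, h2, h3, h4⟩ := exists_down B.ult hg.tM
  obtain ⟨e, he⟩ := ACL_factor B.diag e' fun x => h4 _ (ACL_up (R := B.M) B.diag
    (fun r => ⟨⟨_, (hd.mem _).2 r.2⟩, rfl⟩) (Algebra.IsAlgebraic.isAlgebraic x))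
  refine ⟨C, e, e', ⟨(elem_good h3).1 hg, h1, h2⟩, Elem.of_comp (he ▸ hd) h3, h3, he, h4, fun a b hab => ?_⟩
  have key : ∀ x u w : C.Ω, (B.ult.O.valuation (e' x) < B.ult.O.valuation (e' w) ∨
      1 < B.ult.O.valuation (e' x * e' u)) ↔
        (C.O.valuation x < C.O.valuation w ∨ 1 < C.O.valuation (x * u)) := fun x u w => by
    have h5 := h3.vp.lt 1 (x * u)
    rw [map_one, map_one, map_one, map_mul e'] at h5
    rw [h5, h3.vp.lt]
  obtain ⟨y, hy, y0, h5⟩ := ult_satur B.M B.O (fun n => e' (a n)) (fun n => e' (b n)) fun N => by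
    obtain ⟨x, hx, x0, h6⟩ := hab N
    exact ⟨e' x, (h3.mem x).2 hx, (map_ne_zero e').2 x0, fun n hn => (key _ _ _).2 (h6 n hn)⟩
  obtain ⟨x, rfl⟩ := h4 y (isAlgebraic_algebraMap (⟨y, hy⟩ : B.ult.M))
  exact ⟨x, (h3.mem x).1 hy, (map_ne_zero e').1 y0, fun n => (key _ _ _).1 (h5 n)⟩

end Pool.Agent.PA
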