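import Pool.Agent.Work.MP_db9079_lc.PH.Defs

/-!
The interpretation of the language of valued fields with a constant `t` in the perfect closure
of the field of Laurent series over a field of characteristic `p`.
-/

namespace Pool.Agent.PA

open FirstOrder Pool.Agent.PH

instance charLS (κ : Type) [Field κ] (p : ℕ) [CharP κ p] : CharP (LaurentSeries κ) p :=
  charP_of_injective_ringHom (HahnSeries.C (Γ := ℤ) (R := κ)).injective p

/-- The perfect closure of the field of Laurent series over `κ`. -/
abbrev KP (κ : Type) [Field κ] (p : ℕ) [Fact p.Prime] [CharP κ p] : Type :=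
  PerfectClosure (LaurentSeries κ) p

/-- The image of a power series in `KP κ p`. -/
noncomputable def ofPS (κ : Type) [Field κ] (p : ℕ) [Fact p.Prime] [CharP κ p]
    (f : PowerSeries κ) : KP κ p :=
  PerfectClosure.of (LaurentSeries κ) p (HahnSeries.ofPowerSeries ℤ κ f)

/-- The interpretation: field operations, `t` is the variable, and the valuation ring consists of
the elements some `p ^ n`-th power of which is a power series. -/
noncomputable instance str (κ : Type) [Field κ] (p : ℕ) [Fact p.Prime] [CharP κ p] :
    Lang.Structure (KP κ p) where
  funMap := fun {_} f x => match f, x with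
    | .zero, _ => 0
    | .one, _ => 1
    | .t, _ => ofPS κ p PowerSeries.X
    | .neg, x => - x 0
    | .add, x => x 0 + x 1
    | .mul, x => x 0 * x 1
  RelMap := fun {_} r x => match r, x with
    | .int, x => ∃ (n : ℕ) (f : PowerSeries κ), x 0 ^ p ^ n = ofPS κ p f

end Pool.Agent.PA
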