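import Pool.Agent.Work.MP_db9079_lc.PH.V1
import Mathlib.RingTheory.Valuation.LocalSubring
import Mathlib.RingTheory.Jacobson.Ring
import Mathlib.RingTheory.LocalRing.ResidueField.Basic

/-!
Refining a valuation so that finitely many residues become rational.
-/

namespace Pool.Agent.PA

open Polynomial IsLocalRing Pool.Agent.PH

theorem PL_ac {k : Type*} [Field k] [IsAlgClosed k] (R : ValuationSubring k) :
    IsAlgClosed (ResidueField R) := by
  refine IsAlgClosed.of_exists_root _ fun f hf hirr => ?_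
  have hl : f ∈ lifts (residue R) :=
    (lifts_iff_coeff_lifts f).2 fun i => residue_surjective (f.coeff i)
  obtain ⟨F, hF, hFd, hFm⟩ := lifts_and_natDegree_eq_and_monic hl hf
  have hm := hFm.map R.subtype
  obtain ⟨x, hx⟩ := IsAlgClosed.exists_root (F.map R.subtype) (by
    rw [degree_eq_natDegree hm.ne_zero, hFm.natDegree_map, hFd]
    exact_mod_cast (hirr.natDegree_pos).ne')
  have hxR : x ∈ R := root_mem R hm (fun i => by
    rw [coeff_map]
    exact (F.coeff i).2) hx.eq_zero
  have h1 : F.eval ⟨x, hxR⟩ = 0 := by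
    apply R.subtype_injective
    rw [map_zero, ← eval₂_at_apply, ← eval_map]
    exact hx.eq_zero
  refine ⟨residue R ⟨x, hxR⟩, ?_⟩
  rw [← hF, eval_map, eval₂_at_apply, h1, map_zero]

theorem place {k T : Type} [Field k] [IsAlgClosed k] [Field T] [Algebra k T]
    (O : ValuationSubring T) (S : Finset T) (hS : ∀ g ∈ S, g ∈ O) :
    ∃ O₁ : ValuationSubring T, (∀ a : k, algebraMap k T a ∈ O → algebraMap k T a ∈ O₁) ∧
      (∀ g, O.valuation g < 1 → O₁.valuation g < 1) ∧
      ∀ g ∈ S, ∃ a : k, algebraMap k T a ∈ O ∧ O₁.valuation (g - algebraMap k T a) < 1 := by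
  classical
  let R : ValuationSubring k := O.comap (algebraMap k T)
  let φ : R →+* O := ((algebraMap k T).comp R.subtype).codRestrict O fun a => a.2
  have hφ : ∀ a : R, (φ a : T) = algebraMap k T a := fun _ => rfl
  have : IsLocalHom φ := ⟨fun a ha => by
    have h1 := (vp_comap O (algebraMap k T)).eq a 1
    rw [map_one, map_one, map_one] at h1
    exact (R.valuation_eq_one_iff a).2 (h1.1 ((O.valuation_eq_one_iff _).1 ha))⟩
  let _ : Algebra (ResidueField R) (ResidueField O) := (ResidueField.map φ).toAlgebra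
  have hal : ∀ a : R, algebraMap (ResidueField R) (ResidueField O) (residue R a) =
      residue O (φ a) := fun a => ResidueField.map_residue φ a
  have := PL_ac R
  let S' : Finset (ResidueField O) := S.attach.image fun g => residue O ⟨g.1, hS g.1 g.2⟩
  let B : Subalgebra (ResidueField R) (ResidueField O) := Algebra.adjoin _ (S' : Set _)
  have : Algebra.FiniteType (ResidueField R) B :=
    (Subalgebra.fg_iff_finiteType B).1 ⟨S', rfl⟩
  obtain ⟨m, hm⟩ := Ideal.exists_maximal B
  let _ : Field (B ⧸ m) := Ideal.Quotient.field m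
  have : Module.Finite (ResidueField R) (B ⧸ m) := finite_of_finite_type_of_isJacobsonRing _ _
  have hsurj := (IsAlgClosed.algebraMap_bijective_of_isIntegral
    (k := ResidueField R) (K := B ⧸ m)).2
  let A₀ : Subring O := B.toSubring.comap (residue O)
  let θ : A₀ →+* B := ((residue O).comp A₀.subtype).codRestrict B fun x => x.2
  let ε := A₀.equivMapOfInjective O.subtype O.subtype_injective
  obtain ⟨O₁, h1, h2⟩ := Ideal.image_subset_nonunits_valuationSubring
    ((m.comap θ).comap ε.symm.toRingHom) (Ideal.comap_ne_top _ (Ideal.comap_ne_top _ hm.ne_top))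
  have k1 : ∀ x : O, residue O x ∈ B → (x : T) ∈ O₁ := fun x hx => h1 ⟨x, hx, rfl⟩
  have k2 : ∀ (x : O) (hx : residue O x ∈ B), (⟨residue O x, hx⟩ : B) ∈ m →
      O₁.valuation (x : T) < 1 := fun x hx hx' => by
    refine O₁.mem_nonunits_iff.1 (h2 ⟨ε ⟨x, hx⟩, ?_, rfl⟩)
    change θ (ε.symm (ε ⟨x, hx⟩)) ∈ m
    rw [ε.symm_apply_apply]
    exact hx'
  refine ⟨O₁, fun a ha => k1 (φ ⟨a, ha⟩) (hal _ ▸ B.algebraMap_mem _), fun g hg => ?_,
    fun g hg => ?_⟩
  · have h3 : residue O ⟨g, (O.valuation_le_one_iff g).1 hg.le⟩ = 0 :=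
      (residue_eq_zero_iff _).2 ((O.valuation_lt_one_iff _).2 hg)
    refine k2 ⟨g, (O.valuation_le_one_iff g).1 hg.le⟩ (h3 ▸ B.zero_mem) ?_
    have h4 : (⟨residue O ⟨g, (O.valuation_le_one_iff g).1 hg.le⟩, h3 ▸ B.zero_mem⟩ : B) = 0 :=
      Subtype.ext h3
    rw [h4]
    exact m.zero_mem
  · have h3 : residue O ⟨g, hS g hg⟩ ∈ B := Algebra.subset_adjoin
      (Finset.mem_coe.2 (Finset.mem_image.2 ⟨⟨g, hg⟩, Finset.mem_attach _ _, rfl⟩))
    obtain ⟨c, hc⟩ := hsurj (Ideal.Quotient.mk m ⟨_, h3⟩)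
    obtain ⟨a, rfl⟩ := residue_surjective c
    have h4 : residue O (⟨g, hS g hg⟩ - φ a) ∈ B := by
      rw [map_sub, ← hal]
      exact sub_mem h3 (B.algebraMap_mem _)
    refine ⟨a, a.2, k2 (⟨g, hS g hg⟩ - φ a) h4 ?_⟩
    have h5 : (⟨residue O (⟨g, hS g hg⟩ - φ a), h4⟩ : B) =
        ⟨_, h3⟩ - algebraMap (ResidueField R) B (residue R a) := by
      apply Subtype.ext
      change residue O (⟨g, hS g hg⟩ - φ a) = residue O ⟨g, hS g hg⟩ -
        algebraMap (ResidueField R) (ResidueField O) (residue R a)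
      rw [map_sub, hal]
    rw [h5, ← Ideal.Quotient.eq, ← hc]
    rfl

end Pool.Agent.PA
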