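import Pool.Agent.Work.MP_db9079_lc.PA.MOD
import Pool.Agent.Work.MP_db9079_lc.PA.PL
import Pool.Agent.Work.MP_db9079_lc.PH.FL

/-!
The finite level embedding.
-/

namespace Pool.Agent.PA

open IntermediateField Pool.Agent.PH

variable {k Ω₁ : Type} [Field k] [IsAlgClosed k] [Field Ω₁] [IsAlgClosed Ω₁] [Algebra k Ω₁]

variable [Countable k] {p : ℕ} [Fact p.Prime] (L₁ : Subfield Ω₁) [PerfectField L₁]
  [Algebra.IsAlgebraic L₁ Ω₁]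

theorem fl_vt {x : Ω₁} (halg : Algebra.IsAlgebraic k⟮x⟯ Ω₁)
    (hkalg : Algebra.IsAlgebraic (L₁.comap (algebraMap k Ω₁)) k)
    (htame : ∀ τ : Ω₁ ≃ₐ[L₁] Ω₁, (∀ a, τ (algebraMap k Ω₁ a) = algebraMap k Ω₁ a) →
      ∀ g, ∃ m : ℕ, τ^[p ^ m] g = g)
    {B : PM} (hB : AG p B) (hs : Satur B.M B.O) (j : k →+* B.Ω)
    (hjM : ∀ a, algebraMap k Ω₁ a ∈ L₁ ↔ j a ∈ B.M) (ht : B.t ∈ j.range)
    (O₁ : ValuationSubring Ω₁) (hjO : ∀ a, algebraMap k Ω₁ a ∈ O₁ ↔ j a ∈ B.O) (S₁ : Finset Ω₁)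
    (hS₁ : ∀ (τ : Ω₁ ≃ₐ[L₁] Ω₁), ∀ g ∈ S₁, τ g ∈ S₁) {y₀ : Ω₁}
    (hy₀ : y₀ ∈ adjoin k (S₁ : Set Ω₁)) (hvt : VT k O₁ y₀)
    (hinv : ∀ (τ : Ω₁ ≃ₐ[L₁] Ω₁), ∀ g ∈ adjoin k (S₁ : Set Ω₁), τ g ∈ O₁ ↔ g ∈ O₁) :
    ∃ J : Ω₁ →+* B.Ω, (∀ a, J (algebraMap k Ω₁ a) = j a) ∧ (∀ g ∈ S₁, J g ∈ B.M ↔ g ∈ L₁) ∧
      ∀ g, O₁.valuation g < 1 → B.O.valuation (J g) < 1 := by
  classical
  have := hB.ac
  have := hB.alg
  have := hB.good.perfect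
  have := hB.good.charP
  have : CharP k p := RingHom.charP j j.injective p
  obtain ⟨y, hyF, hy, hg⟩ := exists_gen_fin hvt S₁ hy₀ (exch halg (transc_of_ne (FL_ne hvt)))
  obtain ⟨G, _, _, ρ, ψ, hρ, hψ, ho, hker, hcomp⟩ := flb p L₁ B.M (algebraMap k Ω₁) j hjM hkalg
    htame hB.linesC (insert y S₁)
  have hF : ∀ (τ : Ω₁ ≃ₐ[L₁] Ω₁), ∀ g ∈ adjoin k (S₁ : Set Ω₁), τ g ∈ adjoin k (S₁ : Set Ω₁) ∧
      (τ g ∈ O₁ ↔ g ∈ O₁) := fun τ g hg =>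
    ⟨D5_ind (τ : Ω₁ →+* Ω₁) _ (adjoin k (S₁ : Set Ω₁)).toSubfield (fun a => by
      obtain ⟨b, hb⟩ := aut_k L₁ hkalg τ a
      exact hb ▸ (adjoin k (S₁ : Set Ω₁)).algebraMap_mem b)
      (fun t ht => subset_adjoin _ _ (hS₁ τ t ht)) hg, hinv τ g hg⟩
  obtain ⟨a, ha⟩ := ht
  obtain ⟨J, h1, h2, h3⟩ := flc p L₁ B.M O₁ B.O j (adjoin k (S₁ : Set Ω₁)) hyF
    (exch halg (transc_of_ne (FL_ne hy))) hy hg hF (fun a => (hjO a).symm) hB.hensel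
    (fun α c hc h0 h1 => hB.atm α hc h0 h1) hs hB.den
    ⟨a, fun e => hB.good.t0 (by rw [← ha, e, map_zero]), ha ▸ hB.good.t1⟩ ρ ψ hρ hψ ho
    (fun τ hτ => hker τ hτ y (Finset.mem_insert_self _ _))
  refine ⟨J, h1, fun g hg => ⟨fun hJ => ?_, fun hL => ?_⟩, h2⟩
  · obtain ⟨z, hz⟩ := fix_range (M := L₁) (y := g) fun τ' => by
      obtain ⟨σ, hσ⟩ := hψ (ρ τ')
      obtain ⟨τ, hτ, hc⟩ := hcomp σ
      have e1 : J (τ g) = J g :=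
        (h3 σ τ hτ hc g (subset_adjoin _ _ hg)).symm.trans (σ.commutes ⟨_, hJ⟩)
      have e2 := hker (τ⁻¹ * τ') (by rw [map_mul, map_inv, hτ, hσ, inv_mul_cancel]) g
        (Finset.mem_insert_of_mem hg)
      have e3 := congrArg τ e2
      rw [AlgEquiv.mul_apply, AlgEquiv.aut_inv, AlgEquiv.apply_symm_apply] at e3
      exact e3.trans (J.injective e1)
    exact hz ▸ z.2
  · obtain ⟨z, hz⟩ := fix_range (M := B.M) (y := J g) fun σ => by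
      obtain ⟨τ, hτ, hc⟩ := hcomp σ
      exact (h3 σ τ hτ hc g (subset_adjoin _ _ hg)).trans (congrArg J (τ.commutes ⟨_, hL⟩))
    exact hz ▸ z.2

theorem fl (O : ValuationSubring Ω₁) {x : Ω₁} (hxL : x ∈ L₁)
    (hx : ∀ a : k, x ≠ algebraMap k Ω₁ a) (halg : Algebra.IsAlgebraic k⟮x⟯ Ω₁)
    (hkalg : Algebra.IsAlgebraic (L₁.comap (algebraMap k Ω₁)) k)
    (hO : ∀ τ : Ω₁ ≃ₐ[L₁] Ω₁, VP O O τ)
    (htame : ∀ τ : Ω₁ ≃ₐ[L₁] Ω₁, (∀ a, τ (algebraMap k Ω₁ a) = algebraMap k Ω₁ a) →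
      ∀ g, ∃ m : ℕ, τ^[p ^ m] g = g)
    (hres : Res k O Set.univ) (hfr : FR O) {B : PM} (hB : AG p B) (hs : Satur B.M B.O)
    (j : k →+* B.Ω) (hjM : ∀ a, algebraMap k Ω₁ a ∈ L₁ ↔ j a ∈ B.M)
    (hjO : ∀ a, algebraMap k Ω₁ a ∈ O ↔ j a ∈ B.O) (ht : B.t ∈ j.range) (S Φ : Finset Ω₁)
    (hΦ : ∀ g ∈ Φ, O.valuation g < 1) :
    ∃ J : Ω₁ →+* B.Ω, (∀ a, J (algebraMap k Ω₁ a) = j a) ∧ (∀ g ∈ S, J g ∈ B.M ↔ g ∈ L₁) ∧
      ∀ g ∈ Φ, B.O.valuation (J g) < 1 := by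
  classical
  by_cases hv : ∃ g₀, VT k O g₀
  · obtain ⟨g₀, hg₀⟩ := hv
    obtain ⟨S₁, hS, hS₁⟩ := exists_stable_set (L := L₁) (insert g₀ S)
    obtain ⟨J, h1, h2, h3⟩ := fl_vt L₁ halg hkalg htame hB hs j hjM ht O hjO S₁ hS₁
      (subset_adjoin _ _ (hS (Finset.mem_insert_self _ _))) hg₀ fun τ g _ => hO τ g
    exact ⟨J, h1, fun g hg => h2 g (hS (Finset.mem_insert_of_mem hg)), fun g hg => h3 g (hΦ g hg)⟩
  have := hB.ac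
  have := hB.good.charP
  have : CharP k p := RingHom.charP j j.injective p
  have himm := FL_imm hres fun g hg => hv ⟨g, hg⟩
  have v1 := vp_comap O (algebraMap k Ω₁)
  have v2 : VP (O.comap (algebraMap k Ω₁)) B.O j := fun a => (hjO a).symm
  obtain ⟨a, ha⟩ := id ht
  have hcut : ∀ c r : k, r ≠ 0 →
      O.valuation (x - algebraMap k Ω₁ c) = O.valuation (algebraMap k Ω₁ r) →
      ∃ O₁ : ValuationSubring Ω₁, Near O O₁ x c r := by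
    intro c r hr hcr
    obtain ⟨x', -, -, g1, g2, -⟩ := sat2 hs hB.den j
      ⟨a, fun e => hB.good.t0 (by rw [← ha, e, map_zero]), ha ▸ hB.good.t1⟩ (c := 1) one_ne_zero
      (fun a n h => by rwa [map_one, one_pow])
      (fun a => O.valuation (algebraMap k Ω₁ r) < O.valuation (algebraMap k Ω₁ a)) (by simp)
      (fun a b h h' => h.trans_le ((v1.le a b).2 ((v2.le a b).1 h'))) ∅ Set.countable_empty
    have hne : ∀ a, x' ≠ j a := fun a e => by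
      by_cases h : O.valuation (algebraMap k Ω₁ r) < O.valuation (algebraMap k Ω₁ a)
      · exact (g1 a h).ne (by rw [e])
      · exact (g2 a h).ne (by rw [e])
    have hy : ∀ a : k, x - algebraMap k Ω₁ c ≠ algebraMap k Ω₁ a := fun a e =>
      hx (a + c) (by rw [map_add, ← e, sub_add_cancel])
    obtain ⟨φ, p1, p2⟩ := exists_rat hy (exch halg (transc_of_ne hy)) j hne
    have v3 := vp_comap B.O φ
    refine ⟨B.O.comap φ, fun a => ?_, hr, hcr, ?_, fun a h => ?_⟩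
    · rw [← v3, p1, hjO]
    · rw [← v3.lt, p1, p2]
      exact g2 r (lt_irrefl _)
    · rw [← v3.lt, p1, p2]
      exact g1 a h
  obtain ⟨S₁, hS, hS₁⟩ := exists_stable_set (L := L₁) (insert x S)
  obtain ⟨O₁, q1, ⟨c, q2⟩, q3, q4⟩ := deform p O halg hx himm hfr hcut L₁ hxL hO
    (aut_k L₁ hkalg) S₁ Φ hΦ
  obtain ⟨J, h1, h2, h3⟩ := fl_vt L₁ halg hkalg htame hB hs j hjM ht O₁
    (fun a => (q1 a).trans (hjO a)) S₁ hS₁
    (sub_mem (subset_adjoin _ _ (hS (Finset.mem_insert_self _ _)))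
      ((adjoin k (S₁ : Set Ω₁)).algebraMap_mem c)) q2
    fun τ g hg => q4 τ g (adjoin.mono _ _ _ (Set.subset_insert _ _) hg)
  exact ⟨J, h1, fun g hg => h2 g (hS (Finset.mem_insert_of_mem hg)), fun g hg => h3 g (q3 g hg)⟩

theorem fl3 (O : ValuationSubring Ω₁) {x : Ω₁} (halg : Algebra.IsAlgebraic k⟮x⟯ Ω₁)
    (hkalg : Algebra.IsAlgebraic (L₁.comap (algebraMap k Ω₁)) k)
    (hO : ∀ τ : Ω₁ ≃ₐ[L₁] Ω₁, VP O O τ)
    (hfix : ∀ τ : Ω₁ ≃ₐ[L₁] Ω₁, ∀ g ∈ O, O.valuation (τ g - g) < 1)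
    (htame : ∀ τ : Ω₁ ≃ₐ[L₁] Ω₁, (∀ a, τ (algebraMap k Ω₁ a) = algebraMap k Ω₁ a) →
      ∀ g, ∃ m : ℕ, τ^[p ^ m] g = g)
    (hres : ¬ Res k O Set.univ) {B : PM} (hB : AG p B) (hs : Satur B.M B.O)
    (j : k →+* B.Ω) (hjM : ∀ a, algebraMap k Ω₁ a ∈ L₁ ↔ j a ∈ B.M)
    (hjO : ∀ a, algebraMap k Ω₁ a ∈ O ↔ j a ∈ B.O) (ht : B.t ∈ j.range) (S : Finset Ω₁) :
    ∃ J : Ω₁ →+* B.Ω, (∀ a, J (algebraMap k Ω₁ a) = j a) ∧ (∀ g ∈ S, J g ∈ B.M ↔ g ∈ L₁) ∧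
      ∀ g ∈ S, J g ∈ B.O ↔ g ∈ O := by
  classical
  obtain ⟨g₀, hg₀, hn⟩ : ∃ g₀ ∈ O, ∀ a : k, ¬ O.valuation (g₀ - algebraMap k Ω₁ a) < 1 := by
    by_contra hc
    refine hres fun g _ hg => ?_
    by_contra hd
    exact hc ⟨g, hg, fun a ha => hd ⟨a, ha⟩⟩
  obtain ⟨S₁, hS, hS₁⟩ := exists_stable_set (L := L₁) (insert g₀ S)
  obtain ⟨O₁, p1, p2, p3⟩ := place (k := k) O (S₁.filter (· ∈ O))
    fun g hg => (Finset.mem_filter.1 hg).2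
  have hinv : ∀ (W : ValuationSubring Ω₁) (y : Ω₁), y ∉ W → W.valuation y⁻¹ < 1 := fun W y hy => by
    rw [map_inv₀]
    exact inv_lt_one_of_one_lt₀ (by rwa [← not_le, W.valuation_le_one_iff])
  have hle : ∀ y ∈ O₁, y ∈ O := fun y hy => by
    by_contra hc
    have h0 : y ≠ 0 := fun e => hc (e ▸ zero_mem _)
    have h1 := p2 _ (hinv O y hc)
    rw [map_inv₀, inv_lt_one₀ ((Valuation.pos_iff _).2 h0)] at h1
    exact absurd ((O₁.valuation_le_one_iff y).2 hy) (not_le.2 h1)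
  have hg₁ : g₀ ∈ S₁ := hS (Finset.mem_insert_self _ _)
  obtain ⟨a₀, ha₀, ha₁⟩ := p3 g₀ (Finset.mem_filter.2 ⟨hg₁, hg₀⟩)
  have hvt : VT k O₁ (g₀ - algebraMap k Ω₁ a₀) := fun b hb => by
    have h1 : 1 ≤ O.valuation (g₀ - algebraMap k Ω₁ a₀) := not_lt.1 (hn a₀)
    generalize g₀ - algebraMap k Ω₁ a₀ = y at h1 hb ha₁
    have hy : y ≠ 0 := (Valuation.pos_iff O.valuation).1 (zero_lt_one.trans_le h1)
    have hb0 : O₁.valuation (algebraMap k Ω₁ b) ≠ 0 := hb ▸ (Valuation.ne_zero_iff _).2 hy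
    have h2 : y / algebraMap k Ω₁ b ∈ O := hle _ (by
      rw [← O₁.valuation_le_one_iff, map_div₀, hb, div_self hb0])
    have h3 : y⁻¹ ∈ O := by
      rw [← O.valuation_le_one_iff, map_inv₀]
      exact inv_le_one_of_one_le₀ h1
    have h4 : algebraMap k Ω₁ b⁻¹ ∈ O := by
      have h5 := mul_mem h2 h3
      rwa [div_eq_mul_inv, mul_right_comm, mul_inv_cancel₀ hy, one_mul, ← map_inv₀] at h5
    have h6 := (O₁.valuation_le_one_iff _).2 (p1 _ h4)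
    rw [map_inv₀, map_inv₀, inv_le_one₀ (zero_lt_iff.2 hb0), ← hb] at h6
    exact absurd ha₁ (not_lt.2 h6)
  obtain ⟨J, h1, h2, h3⟩ := fl_vt L₁ halg hkalg htame hB hs j hjM ht O₁
    (fun a => Iff.trans ⟨hle _, p1 a⟩ (hjO a)) S₁ hS₁
    (sub_mem (subset_adjoin _ _ hg₁) ((adjoin k (S₁ : Set Ω₁)).algebraMap_mem a₀)) hvt
    fun τ g _ => ⟨fun h => by
      have h4 := (O₁.valuation_le_one_iff _).1 (p2 _ (hfix τ g ((hO τ g).1 (hle _ h)))).le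
      have h5 := sub_mem h h4
      rwa [sub_sub_cancel] at h5, fun h => by
      have h4 := (O₁.valuation_le_one_iff _).1 (p2 _ (hfix τ g (hle _ h))).le
      have h5 := add_mem h4 h
      rwa [sub_add_cancel] at h5⟩
  refine ⟨J, h1, fun g hg => h2 g (hS (Finset.mem_insert_of_mem hg)), fun g hg => ?_⟩
  by_cases hgO : g ∈ O
  · obtain ⟨a, ha, ha'⟩ := p3 g (Finset.mem_filter.2 ⟨hS (Finset.mem_insert_of_mem hg), hgO⟩)
    refine iff_of_true ?_ hgO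
    have h4 := add_mem ((B.O.valuation_le_one_iff _).1 (h3 _ ha').le) ((hjO a).1 ha)
    rwa [map_sub, h1, sub_add_cancel] at h4
  · have h0 : g ≠ 0 := fun e => hgO (e ▸ zero_mem _)
    have h4 := h3 _ (p2 _ (hinv O g hgO))
    refine iff_of_false ?_ hgO
    rw [map_inv₀, map_inv₀, inv_lt_one₀ ((Valuation.pos_iff _).2 ((map_ne_zero J).2 h0))] at h4
    rwa [← B.O.valuation_le_one_iff, not_le]

end Pool.Agent.PA
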