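import Pool.Agent.Work.MP_db9079_lc.PA.KD
import Pool.Agent.Work.MP_db9079_lc.PH.K1

/-!
The standard model: value group.
-/

namespace Pool.Agent.PA

open Polynomial Pool.Agent.PH

variable {κ : Type} [Field κ] {p : ℕ} [Fact p.Prime] [CharP κ p]

theorem K1_root (y : KP κ p) (s : ℕ) : ∃ b : KP κ p, b ^ p ^ s = y := by
  obtain ⟨b, hb⟩ := (bijective_iterateFrobenius (KP κ p) p s).2 y
  exact ⟨b, by rw [← hb, iterateFrobenius_def]⟩

theorem K1_int (f : PowerSeries κ) : KD_ps κ p f ∈ OK κ p :=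
  ⟨0, f, by rw [pow_zero, pow_one]; rfl⟩

theorem K1_le {F : PowerSeries κ} {m : ℕ} (h : PowerSeries.X ^ m ∣ F) :
    (OK κ p).valuation (KD_ps κ p F) ≤ (OK κ p).valuation (ofPS κ p PowerSeries.X ^ m) := by
  obtain ⟨G, rfl⟩ := h
  rw [map_mul, map_mul, map_pow, ← KD_ps_eq]
  exact mul_le_of_le_one_right' (((OK κ p).valuation_le_one_iff _).2 (K1_int G))

theorem K1_eval (q : κ[X]) : KD_ps κ p (q : PowerSeries κ) =
    (q.map ((KD_ps κ p).comp PowerSeries.C)).eval (ofPS κ p PowerSeries.X) := by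
  induction q using Polynomial.induction_on' with
  | add f g hf hg => rw [Polynomial.coe_add, map_add, hf, hg, Polynomial.map_add, eval_add]
  | monomial i a =>
    rw [← C_mul_X_pow_eq_monomial, Polynomial.coe_mul, Polynomial.coe_pow, Polynomial.coe_C,
      Polynomial.coe_X, map_mul, map_pow, Polynomial.map_mul, Polynomial.map_pow, map_C, map_X,
      eval_mul, eval_pow, eval_C, eval_X]
    rfl

theorem K1_t0 : 0 < (OK κ p).valuation (ofPS κ p PowerSeries.X) := (Valuation.pos_iff _).2 k_t0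

theorem k_vmod {n : ℕ} (hn : n % p ≠ 0) : PV (KPM κ p) n := by
  intro a _ ha
  obtain ⟨s, hs⟩ := kv_val ha
  obtain ⟨m, hm⟩ := hs s le_rfl
  have hn0 : 0 < n := Nat.pos_of_ne_zero fun e => hn (by simp [e])
  have hco : Nat.Coprime (p ^ s) n := Nat.Coprime.pow_left s
    ((Nat.Prime.coprime_iff_not_dvd Fact.out).2 fun h => hn (Nat.mod_eq_zero_of_dvd h))
  obtain ⟨u, w, huw⟩ := Nat.isCoprime_iff_coprime.2 hco
  have hnz : (0 : ℤ) < n := by exact_mod_cast hn0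
  have h0 := Int.emod_nonneg (m * u) hnz.ne'
  have h1 := Int.emod_lt_of_pos (m * u) hnz
  have h2 := Int.emod_add_mul_ediv (m * u) n
  obtain ⟨j, hj⟩ := Int.eq_ofNat_of_zero_le h0
  obtain ⟨b, hb⟩ := K1_root (ofPS κ p PowerSeries.X ^ (m * w + m * u / n * ((p ^ s : ℕ) : ℤ))) s
  have hb0 : b ≠ 0 := by
    rintro rfl
    rw [zero_pow (KD_pos s)] at hb
    exact zpow_ne_zero _ k_t0 hb.symm
  refine ⟨b, trivial, hb0, j, by omega, ?_⟩
  refine (pow_left_inj₀ zero_le zero_le (KD_pos (p := p) s)).1 ?_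
  change (OK κ p).valuation a ^ p ^ s = (OK κ p).valuation (ofPS κ p PowerSeries.X ^ j * b ^ n) ^ p ^ s
  rw [hm, ← map_pow, mul_pow, ← pow_mul, ← pow_mul b, mul_comm n, pow_mul b, hb, ← zpow_natCast,
    ← zpow_natCast, ← zpow_mul, ← zpow_add₀ k_t0, map_zpow₀]
  congr 1
  rw [hj] at h2
  push_cast at huw h2 ⊢
  linear_combination (-m) * huw - (p : ℤ) ^ s * h2

theorem k_den (n : ℕ) : PD (KPM κ p) n := by
  intro a _ b _ ha hab
  change (OK κ p).valuation a < (OK κ p).valuation b at hab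
  have hb : b ≠ 0 := by
    rintro rfl
    rw [map_zero] at hab
    exact not_lt_zero hab
  obtain ⟨s₁, h₁⟩ := kv_val ha
  obtain ⟨s₂, h₂⟩ := kv_val hb
  obtain ⟨m₁, hm₁⟩ := h₁ (s₁ + s₂) (by omega)
  obtain ⟨m₂, hm₂⟩ := h₂ (s₁ + s₂) (by omega)
  have hlt : m₂ < m₁ := by
    rw [← zpow_lt_zpow_iff_right_of_lt_one₀ (K1_t0 (κ := κ) (p := p)) k_t1, ← hm₁, ← hm₂]
    exact pow_lt_pow_left₀ hab zero_le (KD_pos _)
  have hP : n + 1 < p ^ (n + 1) := Nat.lt_pow_self (Fact.out : p.Prime).one_lt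
  have hP' : ((n : ℤ) + 1) < ((p ^ (n + 1) : ℕ) : ℤ) := by exact_mod_cast hP
  have hnz : (0 : ℤ) < (n : ℤ) + 1 := by omega
  have h0 := Int.emod_nonneg (m₂ * ((p ^ (n + 1) : ℕ) : ℤ)) hnz.ne'
  have h1 := Int.emod_lt_of_pos (m₂ * ((p ^ (n + 1) : ℕ) : ℤ)) hnz
  have h2 := Int.emod_add_mul_ediv (m₂ * ((p ^ (n + 1) : ℕ) : ℤ)) ((n : ℤ) + 1)
  obtain ⟨c, hc⟩ := K1_root (ofPS κ p PowerSeries.X ^
    (m₂ * ((p ^ (n + 1) : ℕ) : ℤ) / ((n : ℤ) + 1) + 1)) (s₁ + s₂ + (n + 1))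
  have e : ∀ (x : KP κ p) (m : ℤ), (OK κ p).valuation x ^ p ^ (s₁ + s₂) =
      (OK κ p).valuation (ofPS κ p PowerSeries.X) ^ m → (OK κ p).valuation x ^ p ^ (s₁ + s₂ + (n + 1)) =
        (OK κ p).valuation (ofPS κ p PowerSeries.X) ^ (m * ((p ^ (n + 1) : ℕ) : ℤ)) := by
    intro x m h
    rw [pow_add, pow_mul, h, zpow_mul, zpow_natCast]
  have ec : (OK κ p).valuation (c ^ (n + 1)) ^ p ^ (s₁ + s₂ + (n + 1)) =
      (OK κ p).valuation (ofPS κ p PowerSeries.X) ^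
        ((m₂ * ((p ^ (n + 1) : ℕ) : ℤ) / ((n : ℤ) + 1) + 1) * ((n : ℤ) + 1)) := by
    rw [← map_pow, ← pow_mul, mul_comm (n + 1), pow_mul, hc, ← zpow_natCast, ← zpow_mul,
      map_zpow₀, Nat.cast_add, Nat.cast_one]
  refine ⟨c, trivial, ?_, ?_⟩
  · change (OK κ p).valuation a < (OK κ p).valuation (c ^ (n + 1))
    refine lt_of_pow_lt_pow_left₀ (p ^ (s₁ + s₂ + (n + 1))) zero_le ?_
    rw [e a m₁ hm₁, ec, zpow_lt_zpow_iff_right_of_lt_one₀ (K1_t0 (κ := κ) (p := p)) k_t1]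
    nlinarith
  · change (OK κ p).valuation (c ^ (n + 1)) < (OK κ p).valuation b
    refine lt_of_pow_lt_pow_left₀ (p ^ (s₁ + s₂ + (n + 1))) zero_le ?_
    rw [e b m₂ hm₂, ec, zpow_lt_zpow_iff_right_of_lt_one₀ (K1_t0 (κ := κ) (p := p)) k_t1]
    nlinarith

end Pool.Agent.PA
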