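import Pool.Agent.Work.MP_db9079_lc.PA.KD
import Pool.Agent.Work.MP_db9079_lc.PH.K2

/-!
The standard model: Hensel and almost unramified generators.
-/

namespace Pool.Agent.PA

open Polynomial Pool.Agent.PH

variable {κ : Type} [Field κ] {p : ℕ} [Fact p.Prime] [CharP κ p]

/-- Power series inside the standard model. -/
noncomputable def K2_phi (κ : Type) [Field κ] (p : ℕ) [Fact p.Prime] [CharP κ p] : PowerSeries κ →+* KP κ p :=
  (ofL κ p).comp (HahnSeries.ofPowerSeries ℤ κ)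

theorem K2_le (a : PowerSeries κ) : (OK κ p).valuation (K2_phi κ p a) ≤ 1 :=
  ((OK κ p).valuation_le_one_iff _).mpr ((mem_OK κ p _).mpr ⟨0, a, by rw [pow_zero, pow_one]; rfl⟩)

theorem K2_lt {a : PowerSeries κ} (h : PowerSeries.X ∣ a) :
    (OK κ p).valuation (K2_phi κ p a) < 1 := by
  obtain ⟨b, rfl⟩ := h
  rw [map_mul, map_mul]
  exact (mul_le_of_le_one_right' (K2_le b)).trans_lt k_t1

theorem K2_unit {a : PowerSeries κ} (h : ¬ PowerSeries.X ∣ a) : IsUnit a := by
  rw [PowerSeries.X_dvd_iff] at h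
  exact PowerSeries.isUnit_iff_constantCoeff.mpr (Ne.isUnit h)

theorem K2_dvd {a : PowerSeries κ} (h : (OK κ p).valuation (K2_phi κ p a) < 1) :
    PowerSeries.X ∣ a := by
  by_contra h1
  obtain ⟨b, hb⟩ := (K2_unit h1).exists_right_inv
  have h2 : (OK κ p).valuation (K2_phi κ p (a * b)) < 1 := by
    rw [map_mul, map_mul]
    exact (mul_le_of_le_one_right' (K2_le b)).trans_lt h
  rw [hb, map_one, map_one] at h2
  exact lt_irrefl _ h2

theorem k_hen (d : ℕ) : PHe (KPM κ p) d := by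
  intro f hf h0 h1
  have hp := (Fact.out : p.Prime)
  obtain ⟨F, hF⟩ : ∃ F : (KP κ p)[X], F = X ^ (d + 2) + f := ⟨_, rfl⟩
  have hFm : F.Monic := hF ▸ monic_X_pow_add hf.1
  have hFO : ∀ i, F.coeff i ∈ OK κ p := fun i => by
    rw [hF, coeff_add, coeff_X_pow]
    refine add_mem ?_ (hf.2 i).2
    split_ifs
    exacts [one_mem _, zero_mem _]
  have hF0 : F.coeff 0 = f.coeff 0 := by
    rw [hF, coeff_add, coeff_X_pow, if_neg (by omega), zero_add]
  have hF1 : F.coeff 1 = f.coeff 1 := by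
    rw [hF, coeff_add, coeff_X_pow, if_neg (by omega), zero_add]
  obtain ⟨n, hn⟩ := k_poly F
  obtain ⟨g, hg⟩ := hn n le_rfl
  have hp0 : p ^ n ≠ 0 := pow_ne_zero _ hp.ne_zero
  have hl : F.map (iterateFrobenius (KP κ p) p n) ∈ lifts (K2_phi κ p) := by
    rw [lifts_iff_coeff_lifts]
    intro i
    have e : ofL κ p (g.coeff i) = F.coeff i ^ p ^ n := by
      rw [← coeff_map, ← hg, coeff_map, iterateFrobenius_def]
    have h2 : g.coeff i ∈ (Valued.v : Valuation (LS κ) _).valuationSubring :=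
      (vp_ofL _).mp (e ▸ pow_mem (hFO i) _)
    obtain ⟨a, ha⟩ := (LaurentSeries.val_le_one_iff_eq_coe _ _).mp h2
    refine ⟨a, ?_⟩
    rw [hg, coeff_map, ← ha]
    rfl
  obtain ⟨G, hG, -, hGm⟩ := lifts_and_degree_eq_and_monic hl (hFm.map _)
  have hc : ∀ i, K2_phi κ p (G.coeff i) = F.coeff i ^ p ^ n := fun i => by
    rw [← coeff_map, hG, coeff_map, iterateFrobenius_def]
  obtain ⟨a, ha, ha'⟩ := HenselianRing.is_henselian
    (I := Ideal.span {(PowerSeries.X : PowerSeries κ)}) G hGm 0 (by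
      rw [← coeff_zero_eq_eval_zero, Ideal.mem_span_singleton]
      apply K2_dvd
      rw [hc, map_pow, hF0]
      exact pow_lt_one₀ zero_le h0 hp0) (by
      rw [← coeff_zero_eq_eval_zero, coeff_derivative]
      simp only [zero_add, Nat.cast_zero, mul_one]
      refine IsUnit.map _ (K2_unit fun h => ?_)
      have h2 := K2_lt h
      rw [hc, map_pow, hF1, h1, one_pow] at h2
      exact lt_irrefl _ h2)
  rw [sub_zero, Ideal.mem_span_singleton] at ha'
  obtain ⟨x, hx⟩ := (iterateFrobeniusEquiv (KP κ p) p n).surjective (K2_phi κ p a)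
  have hx' : iterateFrobenius (KP κ p) p n x = K2_phi κ p a := hx
  refine ⟨x, Subfield.mem_top _, ?_, ?_⟩
  · have h2 := K2_lt ha'
    rw [← hx', iterateFrobenius_def, map_pow] at h2
    exact lt_of_pow_lt_pow_left₀ (p ^ n) zero_le (by rwa [one_pow])
  · rw [← hF]
    apply (iterateFrobenius (KP κ p) p n).injective
    rw [map_zero, ← eval₂_at_apply, ← eval_map, ← hG, hx', eval_map, eval₂_at_apply, ha.eq_zero,
      map_zero]

theorem k_tame (d e : ℕ) : PB (KPM κ p) d e := by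
  intro f u₀ w₀ hf hu hw h c _ _ hc
  have hFd : (X ^ d + f).natDegree = d := by
    rw [natDegree_add_eq_left_of_degree_lt (by rw [degree_X_pow]; exact hf.1), natDegree_X_pow]
  obtain ⟨H, g, q, u, w, hm, hd, hO, hg, hq, hu1, hu2, hw1, hw2, c', h1, h2, h3, h4⟩ :=
    K2_tame (OK κ p) p (fun _ _ => k_arch) (monic_X_pow_add hf.1) hFd hu.1 hw.1 h hc
  have e : X ^ d + (H - X ^ d) = H := add_sub_cancel _ _
  refine ⟨H - X ^ d, g, q, u, w, ⟨?_, fun i => ⟨Subfield.mem_top _, ?_⟩⟩,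
    ⟨hg, fun _ => Subfield.mem_top _⟩, ⟨hq, fun _ => Subfield.mem_top _⟩,
    ⟨hu1, fun i => ⟨Subfield.mem_top _, hu2 i⟩⟩, ⟨hw1, fun i => ⟨Subfield.mem_top _, hw2 i⟩⟩,
    c', Subfield.mem_top _, h1, h2, by rw [e]; exact h3, by rw [e]; exact h4⟩
  · have e1 : H.degree = d := by rw [degree_eq_natDegree hm.ne_zero, hd]
    rw [← e1]
    exact degree_sub_lt_left (by rw [e1, degree_X_pow]) hm.ne_zero
      (by rw [hm.leadingCoeff, leadingCoeff_X_pow])
  · rw [coeff_sub, coeff_X_pow]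
    refine sub_mem (hO i) ?_
    split_ifs
    exacts [one_mem _, zero_mem _]

end Pool.Agent.PA
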