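import Pool.Agent.Work.MP_db9079_lc.PA.K1
import Pool.Agent.Work.MP_db9079_lc.PA.K2
import Pool.Agent.Work.MP_db9079_lc.PA.Ax

/-!
The standard model: residue field and algebraic part.
-/

namespace Pool.Agent.PA

open Polynomial Pool.Agent.PH

theorem K3_per {α : Type*} {s : α → α} (hs : Function.Injective s) {R : Finset α}
    (hR : ∀ x ∈ R, s x ∈ R) {x : α} (hx : x ∈ R) {d : ℕ} (hd : R.card ≤ d) :
    s^[d.factorial] x = x := by
  have h1 : ∀ n, s^[n] x ∈ R := fun n => by
    induction n with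
    | zero => exact hx
    | succ n ih =>
      rw [Function.iterate_succ_apply']
      exact hR _ ih
  have key : ∀ i j, i < j → j ≤ d → s^[j] x = s^[i] x → s^[d.factorial] x = x := fun i j h h' e =>
    Function.IsPeriodicPt.trans_dvd (Function.iterate_cancel hs e)
      (Nat.dvd_factorial (by omega) (by omega))
  obtain ⟨i, hi, j, hj, hne, e⟩ := Finset.exists_ne_map_eq_of_card_lt_of_maps_to
    (s := Finset.range (d + 1)) (t := R) (by rw [Finset.card_range]; omega)
    (f := fun n => s^[n] x) fun n _ => h1 n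
  rw [Finset.mem_range] at hi hj
  rcases lt_or_gt_of_ne hne with h | h
  · exact key i j h (by omega) e.symm
  · exact key j i h (by omega) e

variable {κ : Type} [Field κ] {p : ℕ} [Fact p.Prime] [CharP κ p]

theorem k_res [IsAlgClosed κ] (d : ℕ) : PR (KPM κ p) d := by
  intro f hf
  have hp := (Fact.out : p.Prime)
  obtain ⟨F, hF⟩ : ∃ F : (KP κ p)[X], F = X ^ (d + 1) + f := ⟨_, rfl⟩
  have hFm : F.Monic := hF ▸ monic_X_pow_add hf.1
  have hFO : ∀ i, F.coeff i ∈ OK κ p := fun i => by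
    rw [hF, coeff_add, coeff_X_pow]
    refine add_mem ?_ (hf.2 i).2
    split_ifs
    exacts [one_mem _, zero_mem _]
  obtain ⟨n, hn⟩ := k_poly F
  obtain ⟨g, hg⟩ := hn n le_rfl
  have hp0 : p ^ n ≠ 0 := pow_ne_zero _ hp.ne_zero
  have hl : F.map (iterateFrobenius (KP κ p) p n) ∈ lifts (K2_phi κ p) := by
    rw [lifts_iff_coeff_lifts]
    intro i
    have e : ofL κ p (g.coeff i) = F.coeff i ^ p ^ n := by
      rw [← coeff_map, ← hg, coeff_map, iterateFrobenius_def]
    have h2 : g.coeff i ∈ (Valued.v : Valuation (LS κ) _).valuationSubring :=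
      (vp_ofL _).mp (e ▸ pow_mem (hFO i) _)
    obtain ⟨a, ha⟩ := (LaurentSeries.val_le_one_iff_eq_coe _ _).mp h2
    refine ⟨a, ?_⟩
    rw [hg, coeff_map, ← ha]
    rfl
  obtain ⟨G, hG, hGd, hGm⟩ := lifts_and_degree_eq_and_monic hl (hFm.map _)
  obtain ⟨a, ha⟩ := IsAlgClosed.exists_root (G.map PowerSeries.constantCoeff) (by
    rw [hGm.degree_map, hGd, hFm.degree_map, hF,
      degree_add_eq_left_of_degree_lt (by rw [degree_X_pow]; exact hf.1), degree_X_pow]
    exact_mod_cast Nat.succ_ne_zero d)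
  have ha' : PowerSeries.X ∣ G.eval (PowerSeries.C a) := by
    rw [PowerSeries.X_dvd_iff, ← eval₂_at_apply, ← eval_map, PowerSeries.constantCoeff_C]
    exact ha.eq_zero
  obtain ⟨x, hx⟩ := (iterateFrobeniusEquiv (KP κ p) p n).surjective (K2_phi κ p (PowerSeries.C a))
  have hx' : iterateFrobenius (KP κ p) p n x = K2_phi κ p (PowerSeries.C a) := hx
  refine ⟨x, Subfield.mem_top _, ⟨n, PowerSeries.C a, hx'⟩, ?_⟩
  have h2 := K2_lt (p := p) ha'
  rw [← eval₂_at_apply, ← eval_map, hG, ← hx', eval_map, eval₂_at_apply, iterateFrobenius_def,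
    map_pow] at h2
  rw [← hF]
  exact lt_of_pow_lt_pow_left₀ (p ^ n) zero_le (by rwa [one_pow])

theorem k_alg (d e m : ℕ) : PE2 p (KPM κ p) d e m := by
  intro f hf hc x _ hx
  change (KP κ p)[X] at f
  change KP κ p at x
  have hmon : (X ^ d + f : (KP κ p)[X]).Monic := monic_X_pow_add hf.1
  have hdeg : (X ^ d + f : (KP κ p)[X]).natDegree = d := by
    refine natDegree_eq_of_degree_eq_some ?_
    rw [degree_add_eq_left_of_degree_lt (by rw [degree_X_pow]; exact hf.1), degree_X_pow]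
  let s : PowerSeries κ →+* PowerSeries κ := PowerSeries.map (frobenius κ p)
  let Fx : Subring (PowerSeries κ) := s.eqLocus (RingHom.id _)
  have hl : (X ^ d + f : (KP κ p)[X]) ∈ lifts ((KD_ps κ p).comp Fx.subtype) := by
    refine add_mem (pow_mem (X_mem_lifts _) d) ((lifts_iff_coeff_lifts _).2 fun i => ?_)
    change f.coeff i ∈ ((KD_ps κ p).comp Fx.subtype).range
    by_cases hi : i < d
    · obtain ⟨g, hg, e⟩ := hc i hi
      rw [e, eval_eq_sum_range]
      have hX : PowerSeries.X ∈ Fx := PowerSeries.map_X (frobenius κ p)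
      have hX' : ofPS κ p PowerSeries.X ∈ ((KD_ps κ p).comp Fx.subtype).range :=
        RingHom.mem_range.2 ⟨⟨PowerSeries.X, hX⟩, rfl⟩
      refine sum_mem fun k _ => mul_mem ?_ (pow_mem hX' k)
      obtain ⟨n, hn⟩ := (mem_bot_iff_intCast p (KP κ p)).1
        ((Subfield.mem_bot_iff_pow_eq_self (KP κ p) p).2 (hg.2 k).2)
      exact hn ▸ intCast_mem _ n
    · rw [coeff_eq_zero_of_degree_lt (hf.1.trans_le (by exact_mod_cast not_lt.1 hi))]
      exact zero_mem _
  obtain ⟨F₀, hF₀, hFd₀, hFm₀⟩ := lifts_and_natDegree_eq_and_monic hl hmon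
  obtain ⟨F, hFF⟩ : ∃ F, F = F₀.map Fx.subtype := ⟨_, rfl⟩
  have hFm : F.Monic := hFF ▸ hFm₀.map _
  have hFd : F.natDegree = (X ^ d + f : (KP κ p)[X]).natDegree := by
    rw [hFF, hFm₀.natDegree_map, hFd₀]
  have hx₀ : F₀.eval₂ ((KD_ps κ p).comp Fx.subtype) x = 0 := by
    rw [eval₂_eq_eval_map, hF₀]
    exact hx
  have hx' : F.eval₂ (KD_ps κ p) x = 0 := by
    rw [hFF, eval₂_map]
    exact hx₀
  have hxO : x ∈ OK κ p := by
    let φ : PowerSeries κ →+* OK κ p := (KD_ps κ p).codRestrict (OK κ p) K1_int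
    have hint : IsIntegral (OK κ p) x := ⟨F.map φ, hFm.map φ, by rw [eval₂_map]; exact hx'⟩
    obtain ⟨y, rfl⟩ := IsIntegrallyClosed.isIntegral_iff.1 hint
    exact y.2
  have hy : ∃ y : LS κ, x ^ p ^ d = ofL κ p y := by
    let _ : Algebra (LS κ) (KP κ p) := (ofL κ p).toAlgebra
    have : IsPurelyInseparable (LS κ) (KP κ p) :=
      (isPurelyInseparable_iff_pow_mem (LS κ) p).2 fun z => by
        obtain ⟨n, g, hg⟩ := KD_pow κ p z
        exact ⟨n, g, hg.symm⟩
    obtain ⟨s, y, hs⟩ := IsPurelyInseparable.minpoly_eq_X_pow_sub_C (LS κ) p x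
    have h1 : aeval x (F.map (HahnSeries.ofPowerSeries ℤ κ)) = 0 := by
      rw [aeval_def, eval₂_map]
      exact hx'
    have h2 := natDegree_le_natDegree (minpoly.min (LS κ) x (hFm.map _) h1)
    rw [hs, natDegree_X_pow_sub_C, hFm.natDegree_map, hFd, hdeg] at h2
    have h3 := minpoly.aeval (LS κ) x
    rw [hs, map_sub, map_pow, aeval_X, aeval_C, sub_eq_zero] at h3
    exact ⟨_, KD_up κ p (ofL κ p) h3
      ((Nat.lt_pow_self (Fact.out : p.Prime).one_lt).le.trans h2)⟩
  obtain ⟨y, hy⟩ := hy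
  have hyO : Valued.v y ≤ 1 := (vp_ofL y).1 (hy ▸ pow_mem hxO _)
  obtain ⟨G, rfl⟩ := (LaurentSeries.val_le_one_iff_eq_coe _ y).1 hyO
  have hper : ∀ i, PowerSeries.coeff i G ^ p ^ d.factorial = PowerSeries.coeff i G := by
    classical
    have : CharP (PowerSeries κ) p := charP_of_injective_ringHom PowerSeries.C_injective p
    let ψ : Fx →+* PowerSeries κ := (iterateFrobenius (PowerSeries κ) p d).comp Fx.subtype
    have h1 : s.comp ψ = ψ := RingHom.ext fun c => by
      change s (c.1 ^ p ^ d) = c.1 ^ p ^ d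
      rw [map_pow, show s c.1 = c.1 from c.2]
    have h2 : (KD_ps κ p).comp ψ =
        (iterateFrobenius (KP κ p) p d).comp ((KD_ps κ p).comp Fx.subtype) :=
      RingHom.ext fun c => map_pow (KD_ps κ p) c.1 (p ^ d)
    have h3 : F₀.eval₂ ψ G = 0 := by
      apply ((ofL κ p).injective.comp HahnSeries.ofPowerSeries_injective)
      change KD_ps κ p (F₀.eval₂ ψ G) = KD_ps κ p 0
      have h4 : KD_ps κ p G = iterateFrobenius (KP κ p) p d x := hy.symm
      rw [hom_eval₂, h2, h4, ← hom_eval₂, hx₀, map_zero, map_zero]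
    have h5 : (F₀.map ψ) ≠ 0 := (hFm₀.map ψ).ne_zero
    have h6 : ∀ y, y ∈ (F₀.map ψ).roots.toFinset ↔ F₀.eval₂ ψ y = 0 := fun y => by
      rw [Multiset.mem_toFinset, mem_roots h5, IsRoot.def, eval_map]
    have h7 := K3_per (s := s) (PowerSeries.map_injective _ (frobenius_inj κ p))
      (R := (F₀.map ψ).roots.toFinset) (fun y hy => by
        rw [h6] at hy ⊢
        rw [← h1, ← hom_eval₂, hy, map_zero]) ((h6 G).2 h3) (d := d)
      ((Multiset.toFinset_card_le _).trans ((card_roots' _).trans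
        (by rw [hFm₀.natDegree_map, hFd₀, hdeg])))
    have h8 : ∀ n i, PowerSeries.coeff i (s^[n] G) = PowerSeries.coeff i G ^ p ^ n := fun n i => by
      induction n with
      | zero => simp
      | succ n ih =>
        rw [Function.iterate_succ_apply', PowerSeries.coeff_map, ih, frobenius_def, ← pow_mul,
          pow_succ]
    intro i
    rw [← h8, h7]
  refine ⟨(PowerSeries.trunc m G).map ((KD_ps κ p).comp PowerSeries.C),
    ⟨degree_map_le.trans_lt (PowerSeries.degree_trunc_lt G m), fun i => ⟨trivial, ?_⟩⟩, ?_⟩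
  · rw [coeff_map]
    change ((KD_ps κ p).comp PowerSeries.C) _ ^ _ = _
    rw [← map_pow, PowerSeries.coeff_trunc]
    split_ifs
    · rw [hper]
    · rw [zero_pow (KD_pos _)]
  · have h1 : PowerSeries.X ^ m ∣ G - ((PowerSeries.trunc m G : κ[X]) : PowerSeries κ) := by
      rw [PowerSeries.X_pow_dvd_iff]
      intro i hi
      rw [map_sub, Polynomial.coeff_coe, PowerSeries.coeff_trunc, if_pos hi, sub_self]
    have h2 := K1_le h1
    rw [map_sub, K1_eval] at h2
    rw [hy]
    exact h2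

end Pool.Agent.PA
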