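import Pool.Agent.Work.MP_db9079_lc.PA.KD
import Pool.Agent.Work.MP_db9079_lc.PH.K4

/-!
The standard model: lines are not contained in the image of the Artin-Schreier map.
-/

namespace Pool.Agent.PA

open Polynomial WithZero IntermediateField Pool.Agent.PH

variable {κ : Type} [Field κ] {p : ℕ} [Fact p.Prime] [CharP κ p]

theorem ls_lines {E : Type*} [Field E] [Algebra (LS κ) E] [FiniteDimensional (LS κ) E]
    [Algebra.IsSeparable (LS κ) E] {z : E} (hz : z ≠ 0) :
    ∃ c : LS κ, ∀ y : E, y ^ p - y ≠ algebraMap (LS κ) E c * z :=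
  K4_lines Valued.v (LaurentSeries.valuation_surjective κ) hz

theorem k_lines (d : ℕ) : PC p (KPM κ p) d := by
  intro f z z' q' hf _ _ _ hzz
  let Ω := AlgebraicClosure (LS κ)
  obtain ⟨φ, hφ⟩ : ∃ φ : KP κ p →+* Ω, ∀ g, φ (ofL κ p g) = algebraMap (LS κ) Ω g :=
    ⟨PerfectClosure.lift (LS κ) p Ω (algebraMap (LS κ) Ω), fun _ => rfl⟩
  have hdeg : (X ^ (d + 1) + f : (KP κ p)[X]).degree ≠ 0 := by
    rw [degree_add_eq_left_of_degree_lt (by rw [degree_X_pow]; exact hf.1), degree_X_pow]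
    exact_mod_cast Nat.succ_ne_zero d
  obtain ⟨α, hα⟩ := IsAlgClosed.exists_eval₂_eq_zero φ _ hdeg
  let ev : (KP κ p)[X] →+* Ω := eval₂RingHom φ α
  have hα' : ev (X ^ (d + 1) + f) = 0 := hα
  obtain ⟨n, hn⟩ := IsPurelyInseparable.pow_mem (separableClosure (LS κ) Ω) p α
  have hsep : IsSeparable (LS κ) (α ^ p ^ n) := by
    obtain ⟨x, hx⟩ := hn
    rw [← hx]
    exact x.2
  have := (isSeparable_adjoin_simple_iff_isSeparable (LS κ) Ω).2 hsep
  have := adjoin.finiteDimensional hsep.isIntegral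
  set E := (LS κ)⟮α ^ p ^ n⟯ with hE
  have key : ∀ y : (KP κ p)[X], ∃ s, ev y ^ p ^ s ∈ E := by
    intro y
    induction y using Polynomial.induction_on' with
    | add y y' h h' =>
      obtain ⟨s, hs⟩ := h
      obtain ⟨s', hs'⟩ := h'
      refine ⟨s + s', ?_⟩
      rw [map_add, add_pow_char_pow]
      exact add_mem (K4_up E hs _) (add_comm s s' ▸ K4_up E hs' _)
    | monomial i a =>
      obtain ⟨s, hs⟩ := k_pow a
      obtain ⟨g, hg⟩ := hs (n + s) (by omega)
      refine ⟨n + s, ?_⟩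
      have e : ev (monomial i a) = φ a * α ^ i := eval₂_monomial ..
      rw [e, mul_pow, ← map_pow, hg, hφ, ← pow_mul, mul_comm i, pow_mul]
      exact mul_mem (E.algebraMap_mem g)
        (pow_mem (K4_up E (mem_adjoin_simple_self (LS κ) _) s) i)
  obtain ⟨s, hs⟩ := key z
  have hz0 : ev z ≠ 0 := by
    intro h
    have := congrArg ev hzz
    rw [map_mul, map_add, map_mul, hα', h, map_one] at this
    simp at this
  obtain ⟨c₀, hc₀⟩ := ls_lines (κ := κ) (p := p) (E := E) (z := ⟨_, hs⟩)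
    fun h => pow_ne_zero _ hz0 (congrArg Subtype.val h)
  obtain ⟨c, hc⟩ := (bijective_iterateFrobenius (KP κ p) p s).2 (ofL κ p c₀)
  rw [iterateFrobenius_def] at hc
  refine ⟨c, Subfield.mem_top _, fun y q _ _ h => ?_⟩
  have h1 := congrArg ev h
  have e : ev (C c) = φ c := eval₂_C ..
  rw [map_pow, map_add, map_add, map_mul, map_mul, hα', zero_mul, add_zero, e] at h1
  have h2 : (ev y ^ p ^ s) ^ p = ev y ^ p ^ s + algebraMap (LS κ) Ω c₀ * ev z ^ p ^ s := by
    rw [← pow_mul, mul_comm, pow_mul, h1, add_pow_char_pow, mul_pow, ← map_pow φ, hc, hφ]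
  obtain ⟨s', hs'⟩ := key y
  have h3 : ev y ^ p ^ s ∈ E := by
    refine K4_down E (mul_mem (E.algebraMap_mem c₀) hs) h2 s' ?_
    rw [← pow_mul, ← pow_add, add_comm]
    exact K4_up E hs' s
  exact hc₀ ⟨_, h3⟩ (Subtype.ext (sub_eq_iff_eq_add'.2 h2))

end Pool.Agent.PA
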