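import Pool.Agent.Work.MP_db9079_lc.PA.Defs
import Pool.Agent.Work.MP_db9079_lc.PH.KD

/-!
The perfect closure of the Laurent series field as a valued field.
-/

namespace Pool.Agent.PA

open Polynomial Pool.Agent.PH


/-- Laurent series. -/
abbrev LS (κ : Type) [Field κ] : Type := LaurentSeries κ

variable (κ : Type) [Field κ] (p : ℕ) [Fact p.Prime] [CharP κ p]

/-- The embedding in the perfect closure. -/
noncomputable def ofL : LS κ →+* KP κ p := PerfectClosure.of (LS κ) p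

theorem ofPS_eq (f : PowerSeries κ) :
    ofPS κ p f = ofL κ p (HahnSeries.ofPowerSeries ℤ κ f) := rfl

/-- `ofPS` as a ring homomorphism. -/
noncomputable def KD_ps : PowerSeries κ →+* KP κ p :=
  (ofL κ p).comp (HahnSeries.ofPowerSeries ℤ κ)

theorem KD_ps_eq (f : PowerSeries κ) : ofPS κ p f = KD_ps κ p f := rfl

theorem KD_up {R : Type*} [CommRing R] (φ : R →+* KP κ p) {x : KP κ p} {n m : ℕ} {f : R}
    (h : x ^ p ^ n = φ f) (hnm : n ≤ m) : x ^ p ^ m = φ (f ^ p ^ (m - n)) := by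
  rw [map_pow, ← h, ← pow_mul, ← pow_add, Nat.add_sub_cancel' hnm]

theorem KD_pow (x : KP κ p) : ∃ (n : ℕ) (f : LS κ), x ^ p ^ n = ofL κ p f := by
  refine PerfectClosure.induction_on x fun ⟨n, f⟩ => ⟨n, f, ?_⟩
  rw [← iterate_frobenius]
  exact PerfectClosure.iterate_frobenius_mk _ _ n f

/-- The valuation ring of `KP κ p`. -/
noncomputable def OK : ValuationSubring (KP κ p) where
  carrier := {x | ∃ (n : ℕ) (f : PowerSeries κ), x ^ p ^ n = ofPS κ p f}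
  mul_mem' := by
    rintro x y ⟨n, f, hf⟩ ⟨m, g, hg⟩
    refine ⟨n + m, f ^ p ^ (n + m - n) * g ^ p ^ (n + m - m), ?_⟩
    rw [mul_pow, KD_up κ p (KD_ps κ p) hf (Nat.le_add_right n m),
      KD_up κ p (KD_ps κ p) hg (Nat.le_add_left m n), KD_ps_eq, map_mul]
  one_mem' := ⟨0, 1, by rw [KD_ps_eq, map_one, one_pow]⟩
  add_mem' := by
    rintro x y ⟨n, f, hf⟩ ⟨m, g, hg⟩
    refine ⟨n + m, f ^ p ^ (n + m - n) + g ^ p ^ (n + m - m), ?_⟩
    rw [add_pow_char_pow, KD_up κ p (KD_ps κ p) hf (Nat.le_add_right n m),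
      KD_up κ p (KD_ps κ p) hg (Nat.le_add_left m n), KD_ps_eq, map_add]
  zero_mem' := ⟨0, 0, by rw [KD_ps_eq, map_zero, pow_zero, pow_one]⟩
  neg_mem' := by
    rintro x ⟨n, f, hf⟩
    refine ⟨n, (-1) ^ p ^ n * f, ?_⟩
    rw [neg_pow, hf, KD_ps_eq, KD_ps_eq, map_mul, map_pow, map_neg, map_one]
  mem_or_inv_mem' := fun x => by
    obtain ⟨n, f, hf⟩ := KD_pow κ p x
    rcases (Valued.v : Valuation (LS κ) _).val_le_one_or_val_inv_le_one f with h | h
    · obtain ⟨F, rfl⟩ := (LaurentSeries.val_le_one_iff_eq_coe _ f).1 h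
      exact Or.inl ⟨n, F, hf⟩
    · obtain ⟨F, hF⟩ := (LaurentSeries.val_le_one_iff_eq_coe _ f⁻¹).1 h
      refine Or.inr ⟨n, F, ?_⟩
      rw [inv_pow, hf, ← map_inv₀, ← hF]
      rfl

theorem mem_OK (x : KP κ p) :
    x ∈ OK κ p ↔ ∃ (n : ℕ) (f : PowerSeries κ), x ^ p ^ n = ofPS κ p f := Iff.rfl

/-- The standard model. -/
@[reducible] noncomputable def KPM : PM := ⟨KP κ p, ⊤, OK κ p, ofPS κ p PowerSeries.X⟩

variable {κ p}

theorem k_pow (x : KP κ p) : ∃ n₀ : ℕ, ∀ n, n₀ ≤ n → ∃ f, x ^ p ^ n = ofL κ p f := by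
  obtain ⟨n, f, hf⟩ := KD_pow κ p x
  exact ⟨n, fun m hm => ⟨_, KD_up κ p (ofL κ p) hf hm⟩⟩

theorem k_poly (f : (KP κ p)[X]) : ∃ n₀ : ℕ, ∀ n, n₀ ≤ n →
    ∃ g : (LS κ)[X], f.map (iterateFrobenius (KP κ p) p n) = g.map (ofL κ p) := by
  induction f using Polynomial.induction_on' with
  | add f g hf hg =>
    obtain ⟨n, hn⟩ := hf
    obtain ⟨m, hm⟩ := hg
    refine ⟨n + m, fun k hk => ?_⟩
    obtain ⟨a, ha⟩ := hn k (by omega)
    obtain ⟨b, hb⟩ := hm k (by omega)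
    exact ⟨a + b, by rw [Polynomial.map_add, Polynomial.map_add, ha, hb]⟩
  | monomial i a =>
    obtain ⟨n, hn⟩ := k_pow a
    refine ⟨n, fun k hk => ?_⟩
    obtain ⟨b, hb⟩ := hn k hk
    exact ⟨monomial i b, by rw [map_monomial, map_monomial, iterateFrobenius_def, hb]⟩

theorem vp_ofL : VP (Valued.v : Valuation (LS κ) _).valuationSubring (OK κ p) (ofL κ p) := by
  intro a
  rw [Valuation.mem_valuationSubring_iff, mem_OK]
  constructor
  · rintro ⟨n, f, hf⟩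
    rw [ofPS_eq, ← map_pow] at hf
    have h := (LaurentSeries.val_le_one_iff_eq_coe _ (a ^ p ^ n)).2 ⟨f, ((ofL κ p).injective hf).symm⟩
    rw [map_pow] at h
    exact (pow_le_one_iff_of_nonneg zero_le (KD_pos n)).1 h
  · intro h
    obtain ⟨F, rfl⟩ := (LaurentSeries.val_le_one_iff_eq_coe _ a).1 h
    exact ⟨0, F, by rw [pow_zero, pow_one]; rfl⟩

theorem kv_le (f g : LS κ) : (OK κ p).valuation (ofL κ p f) ≤ (OK κ p).valuation (ofL κ p g) ↔
    Valued.v f ≤ Valued.v g :=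
  (vp_ofL.le f g).trans
    ((Valued.v : Valuation (LS κ) _).isEquiv_valuation_valuationSubring f g).symm

theorem KD_vX : Valued.v (HahnSeries.ofPowerSeries ℤ κ PowerSeries.X : LS κ) =
    WithZero.exp (-1 : ℤ) := by
  simpa using LaurentSeries.valuation_X_pow κ 1

theorem k_t0 : ofPS κ p PowerSeries.X ≠ 0 := by
  rw [ofPS_eq, _root_.map_ne_zero]
  intro h
  have := KD_vX (κ := κ)
  rw [h, map_zero] at this
  exact WithZero.exp_ne_zero this.symm

theorem k_t1 : (OK κ p).valuation (ofPS κ p PowerSeries.X) < 1 := by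
  have h := kv_le (κ := κ) (p := p) 1 (HahnSeries.ofPowerSeries ℤ κ PowerSeries.X)
  rw [map_one, map_one, map_one, KD_vX, ← WithZero.exp_zero, WithZero.exp_le_exp] at h
  rw [← not_le, ofPS_eq, h]
  norm_num

theorem kv_val {x : KP κ p} (hx : x ≠ 0) : ∃ n₀ : ℕ, ∀ n, n₀ ≤ n → ∃ m : ℤ,
    (OK κ p).valuation x ^ p ^ n = (OK κ p).valuation (ofPS κ p PowerSeries.X) ^ m := by
  obtain ⟨n₀, h⟩ := k_pow x
  refine ⟨n₀, fun n hn => ?_⟩
  obtain ⟨f, hf⟩ := h n hn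
  have hf0 : Valued.v f ≠ 0 := by
    rw [Valuation.ne_zero_iff]
    rintro rfl
    exact pow_ne_zero _ hx (hf.trans (map_zero _))
  refine ⟨-WithZero.log (Valued.v f), ?_⟩
  have e : Valued.v f = Valued.v ((HahnSeries.ofPowerSeries ℤ κ PowerSeries.X : LS κ) ^
      (-WithZero.log (Valued.v f))) := by
    rw [map_zpow₀, KD_vX, ← WithZero.exp_zsmul, smul_eq_mul, neg_mul_neg, mul_one,
      WithZero.exp_log hf0]
  rw [← map_pow, hf, ofPS_eq, ← map_zpow₀, ← map_zpow₀]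
  exact le_antisymm ((kv_le _ _).2 e.le) ((kv_le _ _).2 e.ge)

theorem k_arch {a b : KP κ p} (ha : (OK κ p).valuation a < 1) (hb : b ≠ 0) :
    ∃ n : ℕ, (OK κ p).valuation a ^ n ≤ (OK κ p).valuation b := by
  by_cases ha0 : a = 0
  · exact ⟨1, by simp [ha0]⟩
  obtain ⟨n, hn⟩ := kv_val ha0
  obtain ⟨m, hm⟩ := kv_val hb
  obtain ⟨i, hi⟩ := hn (n + m) (by omega)
  obtain ⟨j, hj⟩ := hm (n + m) (by omega)
  have t0 : 0 < (OK κ p).valuation (ofPS κ p PowerSeries.X) := (Valuation.pos_iff _).2 k_t0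
  have hi0 : 0 < i := by
    rw [← zpow_lt_one_iff_right_of_lt_one₀ t0 k_t1, ← hi]
    exact pow_lt_one₀ zero_le ha (KD_pos _)
  refine ⟨j.toNat, (pow_le_pow_iff_left₀ zero_le zero_le (KD_pos (p := p) (n + m))).1 ?_⟩
  rw [← pow_mul, mul_comm, pow_mul, hi, hj, ← zpow_natCast, ← zpow_mul]
  refine zpow_le_zpow_right_of_le_one₀ t0 k_t1.le ?_
  have := Int.self_le_toNat j
  nlinarith [Int.natCast_nonneg j.toNat]

end Pool.Agent.PA
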