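import Pool.Agent.Work.MP_db9079_lc.PA.Ax
import Pool.Agent.Work.MP_db9079_lc.PH.MODb

/-!
Consequences of the axioms: Galois invariance of the valuation, residues, tameness.
-/

namespace Pool.Agent.PA

open Polynomial IntermediateField Pool.Agent.PH

/-- Models with an algebraically closed ambient field which is algebraic over `M`. -/
structure AG (p : ℕ) (A : PM) : Prop where
  good : Good p A
  ac : IsAlgClosed A.Ω
  alg : Algebra.IsAlgebraic A.M A.Ω

theorem MOD_int {F : Type*} [Field F] (O : ValuationSubring F) (s : Multiset F)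
    (hs : ∀ r ∈ s, r ∈ O) : ∀ i, (s.map fun r => X - C r).prod.coeff i ∈ O := by
  induction s using Multiset.induction_on with
  | empty =>
    intro i
    rw [Multiset.map_zero, Multiset.prod_zero, coeff_one]
    split_ifs
    exacts [O.one_mem, O.zero_mem]
  | cons a s ih =>
    rw [Multiset.map_cons, Multiset.prod_cons, mul_comm]
    exact MOD_step O (ih fun r hr => hs r (Multiset.mem_cons_of_mem hr))
      (hs a (Multiset.mem_cons_self _ _))

theorem MOD_near {F : Type*} [Field F] (O : ValuationSubring F) (s : Multiset F) {x : F}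
    (h : O.valuation ((s.map fun r => X - C r).prod.eval x) < 1) :
    ∃ r ∈ s, O.valuation (x - r) < 1 := by
  induction s using Multiset.induction_on with
  | empty => simp at h
  | cons a s ih =>
    rw [Multiset.map_cons, Multiset.prod_cons, eval_mul, map_mul, eval_sub, eval_X, eval_C] at h
    by_cases ha : O.valuation (x - a) < 1
    · exact ⟨a, Multiset.mem_cons_self _ _, ha⟩
    · obtain ⟨r, hr, hr'⟩ := ih ((le_mul_of_one_le_left' (not_lt.1 ha)).trans_lt h)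
      exact ⟨r, Multiset.mem_cons_of_mem hr, hr'⟩

theorem MOD_fix {F : Type*} [Field F] (O : ValuationSubring F) {z : F} {q : ℕ} (hq : 1 < q)
    (h : z ^ q = z) : z = 0 ∨ O.valuation z = 1 := by
  by_cases h0 : z = 0
  · exact Or.inl h0
  · obtain ⟨n, rfl⟩ : ∃ n, q = n + 1 := ⟨q - 1, by omega⟩
    have h1 : z ^ n = 1 := mul_right_cancel₀ h0 (by rw [← pow_succ, h, one_mul])
    have h2 : O.valuation z ^ n = 1 := by rw [← map_pow, h1, map_one]
    exact Or.inr ((pow_eq_one_iff_of_nonneg zero_le (by omega)).1 h2)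

variable {p : ℕ} [Fact p.Prime] {A : PM}

theorem Good.charP (h : Good p A) : CharP A.Ω p :=
  (CharP.charP_iff_prime_eq_zero Fact.out).2 h.char

theorem Good.perfect (h : Good p A) : PerfectField A.M := by
  have := h.charP
  have : PerfectRing A.M p := PerfectRing.ofSurjective _ _ fun x => by
    obtain ⟨y, hy, e⟩ := h.perf x x.2
    exact ⟨⟨y, hy⟩, Subtype.ext e⟩
  exact PerfectRing.toPerfectField _ p

theorem AG.den (h : AG p A) : Den A.M A.O := by
  have := h.alg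
  intro a b ha hab
  have hb : b ≠ 0 := by
    rintro rfl
    simp at hab
  obtain ⟨n, hn, -, a', ha'⟩ := alg_val A.O (Algebra.IsAlgebraic.isAlgebraic (R := A.M) a) ha
  obtain ⟨m, hm, -, b', hb'⟩ := alg_val A.O (Algebra.IsAlgebraic.isAlgebraic (R := A.M) b) hb
  obtain ⟨N, hN⟩ : ∃ N, n * m = N + 1 := ⟨n * m - 1, by have := Nat.mul_pos hn hm; omega⟩
  have h1 : A.O.valuation ((a' : A.Ω) ^ m) = A.O.valuation a ^ (N + 1) := by
    rw [← hN, pow_mul, map_pow, ← map_pow _ a, ha']; rfl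
  have h2 : A.O.valuation ((b' : A.Ω) ^ n) = A.O.valuation b ^ (N + 1) := by
    rw [← hN, mul_comm, pow_mul, map_pow, ← map_pow _ b, hb']; rfl
  have h3 : (a' : A.Ω) ^ m ≠ 0 := by
    rw [← A.O.valuation.ne_zero_iff, h1]
    exact pow_ne_zero _ (A.O.valuation.ne_zero_iff.2 ha)
  obtain ⟨c, hc, h4, h5⟩ := h.good.den N _ (pow_mem a'.2 m) _ (pow_mem b'.2 n) h3
    (by rw [h1, h2]; exact pow_lt_pow_left₀ hab zero_le (Nat.succ_ne_zero N))
  rw [h1, map_pow] at h4
  rw [h2, map_pow] at h5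
  exact ⟨c, hc, lt_of_pow_lt_pow_left₀ _ zero_le h4, lt_of_pow_lt_pow_left₀ _ zero_le h5⟩

theorem MOD_root (h : AG p A) {η : A.Ω} (hη : A.O.valuation η < 1)
    (hc : ∀ σ : A.Ω ≃ₐ[A.M] A.Ω, σ η ≠ η → A.O.valuation (σ η) = 1) :
    η ∈ (algebraMap A.M A.Ω).range := by
  classical
  have := h.alg
  have := h.ac
  have := h.good.perfect
  have : IsGalois A.M A.Ω := FLD_gal
  have halg : IsAlgebraic A.M η := Algebra.IsAlgebraic.isAlgebraic η
  by_contra hn
  obtain ⟨d, hd⟩ := Nat.exists_eq_add_of_le' ((minpoly.two_le_natDegree_iff halg.isIntegral).2 hn)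
  have hm0 := minpoly.monic halg.isIntegral
  have hm := hm0.map (algebraMap A.M A.Ω)
  have hirr := minpoly.irreducible halg.isIntegral
  have hsep : ((minpoly A.M η).map (algebraMap A.M A.Ω)).Separable :=
    (PerfectField.separable_of_irreducible hirr).map
  have hmem : η ∈ ((minpoly A.M η).map (algebraMap A.M A.Ω)).roots := by
    rw [mem_roots hm.ne_zero, IsRoot, eval_map_algebraMap]
    exact minpoly.aeval _ _
  have hfac := (IsAlgClosed.splits ((minpoly A.M η).map (algebraMap A.M A.Ω))).eq_prod_roots_of_monic hm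
  rw [← Multiset.cons_erase hmem] at hfac
  obtain ⟨h1, h2, h3⟩ := MOD_poly A.O (((minpoly A.M η).map (algebraMap A.M A.Ω)).roots.erase η) hη
    fun r hr => by
      obtain ⟨hne, hr'⟩ := (nodup_roots hsep).mem_erase_iff.1 hr
      rw [mem_roots hm.ne_zero, IsRoot, eval_map_algebraMap] at hr'
      obtain ⟨σ, rfl⟩ := minpoly.exists_algEquiv_of_root' halg hr'
      exact hc σ hne
  rw [← hfac] at h1 h2 h3
  have hdeg : ((minpoly A.M η).map (algebraMap A.M A.Ω)).degree = (d + 2 : ℕ) := by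
    rw [degree_eq_natDegree hm.ne_zero, natDegree_map, hd]
  obtain ⟨x, hx, -, hx0⟩ := h.good.hen d ((minpoly A.M η).map (algebraMap A.M A.Ω) - X ^ (d + 2))
    ⟨by
      rw [← hdeg]
      refine degree_sub_lt_left (by rw [hdeg, degree_X_pow]) hm.ne_zero ?_
      rw [hm.leadingCoeff, leadingCoeff_X_pow], fun i => by
      rw [coeff_sub, coeff_X_pow]
      refine ⟨sub_mem ?_ ?_, sub_mem (h1 i) ?_⟩
      · rw [coeff_map]
        exact ((minpoly A.M η).coeff i).2
      · split_ifs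
        exacts [A.M.one_mem, A.M.zero_mem]
      · split_ifs
        exacts [A.O.one_mem, A.O.zero_mem]⟩
    (by rwa [coeff_sub, coeff_X_pow, if_neg (by omega), sub_zero])
    (by rwa [coeff_sub, coeff_X_pow, if_neg (by omega), sub_zero])
  rw [add_sub_cancel, show x = algebraMap A.M A.Ω ⟨x, hx⟩ from rfl, eval_map, eval₂_at_apply,
    map_eq_zero] at hx0
  have h4 := degree_eq_one_of_irreducible_of_root hirr hx0
  rw [degree_eq_natDegree hm0.ne_zero, hd] at h4
  have h5 : d + 2 = 1 := by exact_mod_cast h4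
  omega

theorem MOD_hensel (h : AG p A) (σ : A.Ω ≃ₐ[A.M] A.Ω) {a : A.Ω} (ha : a ∈ A.O) : σ a ∈ A.O := by
  have := h.alg
  have := h.ac
  have := h.good.perfect
  have : IsGalois A.M A.Ω := FLD_gal
  have : FiniteDimensional A.M A.M⟮a⟯ :=
    adjoin.finiteDimensional (Algebra.IsAlgebraic.isAlgebraic a).isIntegral
  let E : IntermediateField A.M A.Ω := normalClosure A.M A.M⟮a⟯ A.Ω
  have haE : a ∈ E := le_normalClosure A.M⟮a⟯ (mem_adjoin_simple_self _ a)
  have hvp := vp_comap A.O (algebraMap E A.Ω)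
  obtain ⟨β, hfix, hone, hsm⟩ := exists_beta' (K := A.M) (A.O.comap (algebraMap E A.Ω))
  have hη : A.O.valuation (algebraMap E A.Ω (1 - β)) < 1 := by
    rw [hvp.lt_one, Valuation.map_sub_swap]
    exact hone
  obtain ⟨m, hm⟩ := MOD_root h hη fun τ hτ => by
    rw [← AlgEquiv.restrictNormal_commutes] at hτ ⊢
    have h1 : τ.restrictNormal E ∉ Dec A.M (A.O.comap (algebraMap E A.Ω)) := fun hd =>
      hτ (by rw [map_sub (τ.restrictNormal E), map_one, hfix _ hd])
    rw [map_sub (τ.restrictNormal E), map_one, map_sub, map_one]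
    exact MOD_unit _ ((hvp.lt_one _).2 (hsm _ h1))
  have hdec : σ.restrictNormal E ∈ Dec A.M (A.O.comap (algebraMap E A.Ω)) := by
    by_contra hd
    have h1 := (hvp.lt_one _).2 (hsm _ hd)
    have h2 : σ (algebraMap E A.Ω (1 - β)) = algebraMap E A.Ω (1 - β) := by
      rw [← hm, σ.commutes]
    rw [AlgEquiv.restrictNormal_commutes] at h1
    rw [← h2, map_sub, map_one, map_sub, map_one, MOD_unit _ h1] at hη
    exact lt_irrefl _ hη
  have h3 := (hvp _).2 (((mem_Dec _).1 hdec ⟨a, haE⟩).2 ha)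
  rwa [AlgEquiv.restrictNormal_commutes] at h3

theorem AG.hensel (h : AG p A) (σ : A.Ω ≃ₐ[A.M] A.Ω) : VP A.O A.O σ := fun a =>
  ⟨fun ha => by simpa using MOD_hensel h σ.symm ha, MOD_hensel h σ⟩

theorem AG.resM (h : AG p A) {g : A.Ω} (hg : g ∈ A.O) :
    ∃ c ∈ A.M, A.O.valuation (g - c) < 1 := by
  classical
  have := h.alg
  have := h.ac
  have := h.good.perfect
  have : IsGalois A.M A.Ω := FLD_gal
  have halg : IsAlgebraic A.M g := Algebra.IsAlgebraic.isAlgebraic g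
  have hm := (minpoly.monic halg.isIntegral).map (algebraMap A.M A.Ω)
  have hfac := (IsAlgClosed.splits ((minpoly A.M g).map (algebraMap A.M A.Ω))).eq_prod_roots_of_monic hm
  have hroot : ∀ r ∈ ((minpoly A.M g).map (algebraMap A.M A.Ω)).roots,
      ∃ σ : A.Ω ≃ₐ[A.M] A.Ω, σ g = r := fun r hr => by
    rw [mem_roots hm.ne_zero, IsRoot, eval_map_algebraMap] at hr
    exact minpoly.exists_algEquiv_of_root' halg hr
  have h1 := MOD_int A.O _ fun r hr => by
    obtain ⟨σ, rfl⟩ := hroot r hr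
    exact (h.hensel σ g).2 hg
  rw [← hfac] at h1
  obtain ⟨f, hf, hf'⟩ := cf_monic (S := fun x => x ∈ A.M ∧ x ∈ A.O) ⟨zero_mem _, zero_mem _⟩ hm
    fun i _ => ⟨by rw [coeff_map]; exact ((minpoly A.M g).coeff i).2, h1 i⟩
  obtain ⟨d, hd⟩ : ∃ d, ((minpoly A.M g).map (algebraMap A.M A.Ω)).natDegree = d + 1 :=
    ⟨_, (Nat.succ_pred_eq_of_pos (by
      rw [natDegree_map]; exact minpoly.natDegree_pos halg.isIntegral)).symm⟩
  rw [hd] at hf hf'
  obtain ⟨x, hx, -, hv⟩ := h.good.res d f hf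
  rw [← hf', hfac] at hv
  obtain ⟨r, hr, hr'⟩ := MOD_near A.O _ hv
  obtain ⟨σ, rfl⟩ := hroot r hr
  refine ⟨x, hx, ?_⟩
  have h2 : VP A.O A.O (σ : A.Ω →+* A.Ω) := h.hensel σ
  have h3 : (σ : A.Ω →+* A.Ω) (x - g) = x - σ g := by
    rw [map_sub]
    exact congrArg (· - σ g) (σ.commutes ⟨x, hx⟩)
  rw [← h3, h2.lt_one] at hr'
  rwa [Valuation.map_sub_swap]

theorem AG.fixres (h : AG p A) (σ : A.Ω ≃ₐ[A.M] A.Ω) {g : A.Ω} (hg : g ∈ A.O) :
    A.O.valuation (σ g - g) < 1 := by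
  obtain ⟨c, hc, hv⟩ := h.resM hg
  have h2 : VP A.O A.O (σ : A.Ω →+* A.Ω) := h.hensel σ
  have h3 : (σ : A.Ω →+* A.Ω) (g - c) = σ g - c := by
    rw [map_sub]
    exact congrArg (σ g - ·) (σ.commutes ⟨c, hc⟩)
  have h4 := (h2.lt_one _).2 hv
  rw [h3] at h4
  rw [← sub_sub_sub_cancel_right _ _ c]
  exact Valuation.map_sub_lt _ h4 hv

theorem AG.algM (h : AG p A) {y : A.Ω} {e : ℕ} (he : e ≠ 0) (hy : y ^ p ^ e = y) : y ∈ A.M := by
  have := h.alg
  have := h.ac
  have := h.good.perfect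
  have := h.good.charP
  have hq : 1 < p ^ e := Nat.one_lt_pow he (Fact.out : p.Prime).one_lt
  have hO : y ∈ A.O := by
    rcases MOD_fix A.O hq hy with h0 | h0
    · rw [h0]
      exact zero_mem _
    · exact (A.O.valuation_le_one_iff _).1 h0.le
  obtain ⟨z, hz⟩ := fix_range (M := A.M) (y := y) fun σ => by
    have h1 : (σ y - y) ^ p ^ e = σ y - y := by rw [sub_pow_char_pow, ← map_pow, hy]
    rcases MOD_fix A.O hq h1 with h0 | h0
    · exact sub_eq_zero.1 h0
    · exact absurd (h.fixres σ hO) (by rw [h0]; exact lt_irrefl _)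
  exact hz ▸ z.2

omit [Fact p.Prime] in
theorem MOD_perf (h : Good p A) (s : ℕ) : ∀ x ∈ A.M, ∃ y ∈ A.M, y ^ p ^ s = x := by
  induction s with
  | zero => exact fun x hx => ⟨x, hx, by simp⟩
  | succ s ih =>
    intro x hx
    obtain ⟨y, hy, rfl⟩ := h.perf x hx
    obtain ⟨z, hz, rfl⟩ := ih y hy
    exact ⟨z, hz, by rw [pow_succ, pow_mul]⟩

theorem AG.approx (h : AG p A) {k : Type*} [Field k] [IsAlgClosed k] (i : k →+* A.Ω)
    (ht : A.t ∈ i.range) {z : A.Ω} (hz : z ≠ 0) :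
    ∃ (a : k) (b : A.Ω), b ∈ A.M ∧ A.O.valuation (z - i a * b) < A.O.valuation z := by
  have := h.alg
  have hp : p.Prime := Fact.out
  obtain ⟨n, hn, -, a, ha⟩ := alg_val A.O (Algebra.IsAlgebraic.isAlgebraic (R := A.M) z) hz
  obtain ⟨s, n', hn', rfl⟩ := Nat.exists_eq_pow_mul_and_not_dvd hn.ne' p hp.ne_one
  have hn0 : n' ≠ 0 := by
    rintro rfl
    exact hn' (dvd_zero p)
  obtain ⟨a', ha', e⟩ := MOD_perf h.good s a a.2
  have hz0 : 0 < A.O.valuation z := zero_lt_iff.2 (A.O.valuation.ne_zero_iff.2 hz)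
  have h1 : A.O.valuation z ^ n' = A.O.valuation a' := by
    refine (pow_left_inj₀ zero_le zero_le (pow_ne_zero s hp.ne_zero)).1 ?_
    rw [← pow_mul, mul_comm, ← map_pow, ha, ← map_pow, e]
    rfl
  have h2 : a' ≠ 0 := by
    rw [← A.O.valuation.ne_zero_iff, ← h1]
    exact pow_ne_zero _ hz0.ne'
  obtain ⟨b, hb, -, j, -, hj⟩ := h.good.vmod n' (fun e => hn' (Nat.dvd_of_mod_eq_zero e)) a' ha' h2
  obtain ⟨t₀, ht₀⟩ := ht
  obtain ⟨w, hw⟩ := IsAlgClosed.exists_pow_nat_eq t₀ (Nat.pos_of_ne_zero hn0)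
  have h3 : A.O.valuation (i (w ^ j) * b) = A.O.valuation z := by
    refine (pow_left_inj₀ zero_le zero_le hn0).1 ?_
    rw [h1, hj, ← map_pow, mul_pow, ← map_pow i, ← pow_mul, mul_comm j, pow_mul, hw, map_pow i, ht₀]
  have h4 : i (w ^ j) * b ≠ 0 := by
    rw [← A.O.valuation.ne_zero_iff, h3]
    exact hz0.ne'
  obtain ⟨c, hcM, hc⟩ := h.resM (g := z / (i (w ^ j) * b))
    (by rw [← A.O.valuation_le_one_iff, map_div₀, h3, div_self hz0.ne'])
  refine ⟨w ^ j, c * b, mul_mem hcM hb, ?_⟩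
  have e1 : z - i (w ^ j) * (c * b) = (z / (i (w ^ j) * b) - c) * (i (w ^ j) * b) := by
    rw [sub_mul, div_mul_cancel₀ _ h4]
    ring
  rw [e1, map_mul, h3]
  exact mul_lt_of_lt_one_left hz0 hc

theorem AG.tame (h : AG p A) {k : Type*} [Field k] [IsAlgClosed k] (i : k →+* A.Ω)
    (ht : A.t ∈ i.range) (σ : A.Ω ≃ₐ[A.M] A.Ω) (hσ : ∀ a, σ (i a) = i a) (g : A.Ω) :
    ∃ m : ℕ, σ^[p ^ m] g = g := by
  have := h.alg
  have := h.good.charP
  have hp : p.Prime := Fact.out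
  obtain ⟨n, hn, hg⟩ := periodic_of_alg σ (Algebra.IsAlgebraic.isAlgebraic (R := A.M) g)
  refine ppow (p := p) A.O (σ : A.Ω →+* A.Ω) (h.hensel σ) ?_ ?_ hn hg
  · intro z hz
    obtain ⟨a, b, hb, hv⟩ := h.approx i ht hz
    refine ⟨i a * b, ?_, hv⟩
    have h1 : σ b = b := σ.commutes ⟨b, hb⟩
    change σ (i a * b) = i a * b
    rw [map_mul, hσ, h1]
  · intro l hl hne
    have : NeZero (l : k) := ⟨fun e => by
      have h1 : (l : A.Ω) = 0 := by rw [← map_natCast i, e, map_zero]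
      exact hne ((Nat.prime_dvd_prime_iff_eq hp hl).1 ((CharP.cast_eq_zero_iff A.Ω p l).1 h1)).symm⟩
    obtain ⟨ζ, hζ⟩ := HasEnoughRootsOfUnity.exists_primitiveRoot k l
    exact ⟨i ζ, hζ.map_of_injective i.injective, hσ ζ⟩

theorem AG.atm (h : AG p A) (α : A.Ω) {c : A.Ω} (hc : c ∈ A.M) (h0 : c ≠ 0)
    (h1 : A.O.valuation c < 1) : ∃ θ ∈ A.O, (∀ σ : A.Ω ≃ₐ[A.M] A.Ω, σ θ = θ ↔ σ α = α) ∧
      ∀ σ : A.Ω ≃ₐ[A.M] A.Ω, σ θ ≠ θ → A.O.valuation c ≤ A.O.valuation (σ θ - θ) := by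
  have := h.ac
  have := h.alg
  have := h.good.perfect
  have : IsGalois A.M A.Ω := FLD_gal
  have hα : IsIntegral A.M α := Algebra.IsIntegral.isIntegral α
  obtain ⟨a, b, hab⟩ : (minpoly A.M α).Separable := Algebra.IsSeparable.isSeparable A.M α
  obtain ⟨f, hf, hf'⟩ := MODb_monic (minpoly.monic hα)
  set d := (minpoly A.M α).natDegree with hd
  have hd0 : 0 < d := minpoly.natDegree_pos hα
  obtain ⟨h', g, q, u, w, hh, hg, -, -, hw, c', -, -, hc', e1, e2⟩ :=
    h.good.tame d (a.natDegree + b.natDegree + 1) f _ _ hf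
      (MODb_cf (g := a) (by omega)) (MODb_cf (g := b) (by omega))
      (by rw [← hf', derivative_map, ← Polynomial.map_mul, ← Polynomial.map_mul,
        ← Polynomial.map_add, hab, Polynomial.map_one]) c hc h0 h1
  have hm : (X ^ d + h').Monic := monic_X_pow_add hh.1
  have hdeg : (X ^ d + h').degree = (d : WithBot ℕ) := by
    rw [degree_add_eq_left_of_degree_lt (by rw [degree_X_pow]; exact hh.1), degree_X_pow]
  have hco : ∀ i, (X ^ d + h').coeff i ∈ A.M ∧ (X ^ d + h').coeff i ∈ A.O := fun i => by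
    rw [coeff_add, coeff_X_pow]
    split_ifs
    · exact ⟨add_mem (one_mem _) (hh.2 i).1, add_mem (one_mem _) (hh.2 i).2⟩
    · rw [zero_add]
      exact hh.2 i
  generalize X ^ d + h' = H at *
  obtain ⟨θ₀, hθ₀⟩ := IsAlgClosed.exists_root H (by rw [hdeg]; exact_mod_cast hd0.ne')
  have h2 : aeval (g.eval θ₀) (minpoly A.M α) = 0 := by
    rw [← eval_map_algebraMap, hf', ← eval_comp, e1, eval_mul, hθ₀.eq_zero, zero_mul]
  obtain ⟨τ, hτ⟩ := minpoly.exists_algEquiv_of_root hα.isAlgebraic h2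
  rw [ MODb_aut hg.2] at hτ
  have hH : H.eval (τ θ₀) = 0 := by rw [← MODb_aut fun i => (hco i).1, hθ₀.eq_zero, map_zero]
  generalize τ θ₀ = θ at hτ hH
  have hO : θ ∈ A.O := root_mem A.O hm (fun i => (hco i).2) hH
  refine ⟨θ, hO, fun σ => ⟨fun hσ => ?_, fun hσ => ?_⟩, fun σ hσ => ?_⟩
  · rw [← hτ, MODb_aut hg.2, hσ]
  · have hθ : IsIntegral A.M θ := Algebra.IsIntegral.isIntegral θ
    have := adjoin.finiteDimensional hθ
    obtain ⟨g₀, rfl⟩ := MODb_lift (algebraMap A.M A.Ω) g fun i => ⟨⟨_, hg.2 i⟩, rfl⟩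
    obtain ⟨H₀, rfl⟩ := MODb_lift (algebraMap A.M A.Ω) H fun i => ⟨⟨_, (hco i).1⟩, rfl⟩
    rw [eval_map_algebraMap] at hτ hH
    have h3 : A.M⟮α⟯ ≤ A.M⟮θ⟯ := by
      rw [adjoin_simple_le_iff, ← hτ]
      exact Algebra.adjoin_le (S := A.M⟮θ⟯.toSubalgebra)
        (Set.singleton_subset_iff.2 (mem_adjoin_simple_self _ θ))
        (Polynomial.aeval_mem_adjoin_singleton _ _)
    have h4 : A.M⟮α⟯ = A.M⟮θ⟯ := by
      refine eq_of_le_of_finrank_le h3 ?_
      rw [adjoin.finrank hθ, adjoin.finrank hα, ← hd]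
      rw [degree_map] at hdeg
      have h5 : H₀ ≠ 0 := fun h5 => hm.ne_zero (by rw [h5, Polynomial.map_zero])
      exact natDegree_le_iff_degree_le.2 (hdeg ▸ minpoly.degree_le_of_ne_zero _ _ h5 hH)
    have h6 : σ ∈ A.M⟮α⟯.fixingSubgroup := (FLD_fixing _ σ).2 fun x hx => by
      rw [Set.mem_singleton_iff.1 hx, hσ]
    rw [h4] at h6
    exact (FLD_fixing _ σ).1 h6 θ rfl
  · have hH' : H.eval (σ θ) = 0 := by rw [← MODb_aut fun i => (hco i).1, hH, map_zero]
    have hO' : σ θ ∈ A.O := root_mem A.O hm (fun i => (hco i).2) hH'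
    have h3 := congrArg (eval θ) e2
    rw [eval_add, eval_mul, eval_mul, hH, mul_zero, zero_add, eval_C] at h3
    refine hc'.trans ?_
    rw [← h3, map_mul]
    refine (mul_le_of_le_one_left' ?_).trans
      (MODb_der A.O (fun i => (hco i).2) hO hO' hσ hH hH')
    rw [ValuationSubring.valuation_le_one_iff, eval_eq_sum_range]
    exact sum_mem fun i _ => mul_mem (hw.2 i).2 (pow_mem hO _)

theorem AG.linesC (h : AG p A) (α z : A.Ω) (hz : z ∈ A.M⟮α⟯) (h0 : z ≠ 0) :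
    ∃ c : A.M, ∀ y ∈ A.M⟮α⟯, y ^ p - y ≠ algebraMap A.M A.Ω c * z := by
  have := h.alg
  have hα : IsIntegral A.M α := Algebra.IsIntegral.isIntegral α
  have hm := minpoly.monic hα
  obtain ⟨f, hf, hf'⟩ := MODb_monic hm
  obtain ⟨d, hd⟩ : ∃ d, (minpoly A.M α).natDegree = d + 1 :=
    ⟨_, (Nat.succ_pred_eq_of_pos (minpoly.natDegree_pos hα)).symm⟩
  obtain ⟨Z, hZ, rfl⟩ := MODb_rep hα hz
  obtain ⟨Z', hZ', hZ''⟩ := MODb_rep hα (inv_mem hz)
  rw [hd] at hf hf' hZ hZ'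
  obtain ⟨Q', hQ'⟩ : minpoly A.M α ∣ Z * Z' - 1 := minpoly.dvd _ _ (by
    rw [map_sub, map_mul, hZ'', map_one, mul_inv_cancel₀ h0, sub_self])
  have h1 : Q'.natDegree < d + 1 := by
    refine MODb_quot hm hQ' (by omega) ?_
    have h2 : (Z * Z').natDegree ≤ _ := natDegree_mul_le
    have h3 := natDegree_sub_le (Z * Z') 1
    rw [natDegree_one] at h3
    omega
  obtain ⟨c, hc, h2⟩ := h.good.lines d f _ _ _ hf (MODb_cf hZ) (MODb_cf hZ') (MODb_cf h1) (by
    rw [← hf', ← Polynomial.map_mul, ← Polynomial.map_mul, ← hQ', Polynomial.map_sub,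
      Polynomial.map_one]
    ring)
  refine ⟨⟨c, hc⟩, fun y hy e => ?_⟩
  obtain ⟨Y, hY, rfl⟩ := MODb_rep hα hy
  rw [hd] at hY
  obtain ⟨Q, hQ⟩ : minpoly A.M α ∣ Y ^ p - Y - C ⟨c, hc⟩ * Z := minpoly.dvd _ _ (by
    rw [map_sub, map_sub, map_pow, map_mul, aeval_C, e, sub_self])
  have hp : 0 < p := (Fact.out : p.Prime).pos
  have h3 : Q.natDegree < p * (d + 1) := by
    refine MODb_quot hm hQ (by positivity) ?_
    have h4 : (Y ^ p).natDegree ≤ p * (d + 1) :=
      natDegree_pow_le.trans (Nat.mul_le_mul_left p hY.le)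
    have h5 := natDegree_C_mul_le (⟨c, hc⟩ : A.M) Z
    have h6 := natDegree_sub_le (Y ^ p) Y
    have h7 := natDegree_sub_le (Y ^ p - Y) (C ⟨c, hc⟩ * Z)
    have h8 : 0 < p * (d + 1) := by positivity
    omega
  refine h2 _ _ (MODb_cf hY) (MODb_cf h3) ?_
  have h9 := congrArg (Polynomial.map (algebraMap A.M A.Ω)) hQ
  rw [Polynomial.map_mul, hf', Polynomial.map_sub, Polynomial.map_sub, Polynomial.map_mul,
    Polynomial.map_pow, map_C] at h9
  rw [← h9]
  change _ = _ + C c * _ + (_ - _ - C c * _)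
  ring

theorem Good.algpart (h : Good p A) {x : A.Ω} (hx : x ∈ A.M)
    (hi : IsIntegral (Subring.closure {A.t}) x) : ∃ s e : ℕ, e ≠ 0 ∧ ∀ m : ℕ,
      ∃ b ∈ Subring.closure (insert A.t {y | y ^ p ^ e = y}),
      A.O.valuation (x ^ p ^ s - b) ≤ A.O.valuation (A.t ^ m) := by
  have := h.charP
  obtain ⟨P, hP, hP'⟩ := hi
  obtain ⟨f, hf, hf'⟩ := cf_monic (S := (· ∈ Subring.closure {A.t})) (zero_mem _)
    (hP.map (algebraMap (Subring.closure {A.t}) A.Ω)) fun i _ => by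
      rw [coeff_map]
      exact (P.coeff i).2
  generalize (P.map (algebraMap (Subring.closure {A.t}) A.Ω)).natDegree = d at hf hf'
  have h1 : Subring.closure {A.t} ≤ A.M.toSubring :=
    Subring.closure_le.2 (Set.singleton_subset_iff.2 h.tM)
  have h2 : Subring.closure {A.t} ≤ (eval₂RingHom (Int.castRingHom A.Ω) A.t).range :=
    Subring.closure_le.2 (Set.singleton_subset_iff.2 ⟨X, by simp⟩)
  choose G hG using fun i => h2 (hf.2 i)
  refine ⟨d, d.factorial, d.factorial_ne_zero, fun m => ?_⟩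
  have h4 : ∀ i < d, ∃ g, Cf (fun x => x ∈ A.M ∧ x ^ p = x)
      (∑ i ∈ Finset.range d, (G i).natDegree + 1) g ∧ f.coeff i = g.eval A.t := by
    intro i hi
    refine ⟨(G i).map (Int.castRingHom A.Ω),
      ⟨degree_map_le.trans_lt (degree_le_natDegree.trans_lt ?_), fun j => ?_⟩, ?_⟩
    · exact_mod_cast Nat.lt_succ_of_le (Finset.single_le_sum (f := fun i => (G i).natDegree)
        (fun _ _ => Nat.zero_le _) (Finset.mem_range.2 hi))
    · rw [coeff_map, eq_intCast]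
      exact ⟨intCast_mem _ _, map_intCast (frobenius A.Ω p) _⟩
    · rw [eval_map, ← hG i, coe_eval₂RingHom]
  have h5 : (X ^ d + f).eval x = 0 := by
    rw [← hf', eval_map]
    exact hP'
  obtain ⟨g, hg, hg'⟩ := h.alg d _ m f ⟨hf.1, fun i => h1 (hf.2 i)⟩ h4 x hx h5
  refine ⟨g.eval A.t, ?_, hg'⟩
  rw [eval_eq_sum_range]
  exact Subring.sum_mem _ fun i _ => Subring.mul_mem _
    (Subring.subset_closure (Set.mem_insert_of_mem _ (hg.2 i).2))
    (Subring.pow_mem _ (Subring.subset_closure (Set.mem_insert _ _)) _)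

end Pool.Agent.PA
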