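import Pool.Agent.Work.MP_db9079_lc.PA.KD
import Pool.Agent.Work.MP_db9079_lc.PH.TR

/-!
Translation of the codes of sentences.
-/

namespace Pool.Agent.PA

open FirstOrder Pool.Agent.Lib.RelComp Pool.Agent.Work.MP_db9079_lc Pool.Agent.PH

section
variable {κ : Type} [Field κ] {p : ℕ} [Fact p.Prime] [CharP κ p]

theorem TR_ev {k : ℕ} {e : ℕ → KP κ p} {v : Empty → KP κ p} {xs : Fin k → KP κ p}
    (h : ∀ i : Fin k, e i = xs i) (t : Lang.Term (Empty ⊕ Fin k)) :
    (KPM κ p).str.ev e (TR_T t) = t.realize (Sum.elim v xs) := by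
  induction t with
  | var x =>
    rcases x with x | i
    · exact x.elim
    · rw [TR_T, ev_tv, h i]; rfl
  | func f ts ih =>
    cases f with
    | zero => rw [TR_T, ev_tz]; rfl
    | one => rw [TR_T, ev_t1]; rfl
    | t => rw [TR_T, ev_tt]; rfl
    | neg => rw [TR_T, ev_tn, ih 0]; rfl
    | add => rw [TR_T, ev_ta, ih 0, ih 1]; rfl
    | mul => rw [TR_T, ev_tm, ih 0, ih 1]; rfl

theorem TR_sat {k : ℕ} (φ : Lang.BoundedFormula Empty k) (e : ℕ → KP κ p) (v : Empty → KP κ p)
    (xs : Fin k → KP κ p) (h : ∀ i : Fin k, e i = xs i) :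
    (KPM κ p).str.Sat (TR_F φ) e ↔ φ.Realize v xs := by
  induction φ generalizing e with
  | falsum => rw [TR_F, sat_ff]; exact Iff.rfl
  | equal t₁ t₂ => rw [TR_F, sat_fe, TR_ev (v := v) h, TR_ev (v := v) h]; exact Iff.rfl
  | rel R ts =>
    cases R with
    | int =>
      rw [TR_F, sat_fr, TR_ev (v := v) h, ev_t1]
      change (OK κ p).valuation _ ≤ (OK κ p).valuation 1 ↔ _
      rw [map_one, ValuationSubring.valuation_le_one_iff, mem_OK]
      exact Iff.rfl
  | imp φ ψ ih1 ih2 => rw [TR_F, sat_fi]; exact imp_congr (ih1 e xs h) (ih2 e xs h)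
  | @all k φ ih =>
    rw [TR_F, sat_fa]
    refine forall_congr' fun x => ?_
    have hx : (KPM κ p).str.D x := Subfield.mem_top x
    rw [imp_iff_right hx]
    refine ih _ (Fin.snoc xs x) fun i => ?_
    refine Fin.lastCases ?_ (fun i => ?_) i
    · simp
    · have := i.2
      rw [Function.update_of_ne (by simp; omega), Fin.snoc_castSucc, ← h]; rfl

end

theorem exists_tr : ∃ g : ℕ → ℕ, CI ∅ g ∧ ∀ (κ : Type) [Field κ] (p : ℕ) [Fact p.Prime] [CharP κ p]
    (σ : Lang.Sentence),
    (KPM κ p).str.Sat (g (Encodable.encode (Language.BoundedFormula.listEncode σ))) (fun _ => 0) ↔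
      Language.Sentence.Realize (KP κ p) σ := by
  refine ⟨fun e => (((TR_memo ((Encodable.decode (α := List ℕ) e).getD [])).getD 0 []).getD 0
    (0, 0)).2, ?_, fun κ _ p _ _ σ => ?_⟩
  · have := TR_ci_memo
    fun_prop
  · have h1 := TR_memo_codes σ []
    rw [List.append_nil] at h1
    have h2 : Encodable.decode (α := List ℕ)
        (Encodable.encode (Language.BoundedFormula.listEncode σ)) = some (TR_codes σ) :=
      TR_decode _
    simp only [h2, Option.getD_some, h1, List.getD_cons_zero]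
    exact TR_sat σ _ _ _ fun i => i.elim0

end Pool.Agent.PA
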