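import Pool.Agent.Work.MP_db9079_lc.PA.FL
import Pool.Agent.Work.MP_db9079_lc.PA.BASE
import Pool.Agent.Work.MP_db9079_lc.PH.STEP

/-!
The extension step.
-/

namespace Pool.Agent.PA

open IntermediateField Filter Pool.Agent.PH

theorem STEP_perf {p : ℕ} [Fact p.Prime] {A : PM} (h : Good p A) {T : Type*} [Field T]
    [IsAlgClosed T] (ι : T →+* A.Ω) : PerfectField (A.M.comap ι) := by
  have := h.charP
  have : CharP T p := ι.charP ι.injective p
  have hp : p.Prime := Fact.out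
  have : PerfectRing (A.M.comap ι) p := by
    refine PerfectRing.ofSurjective _ p fun a => ?_
    obtain ⟨y, hy, hya⟩ := h.perf _ a.2
    obtain ⟨z, hz⟩ := IsAlgClosed.exists_pow_nat_eq (a : T) hp.pos
    have h1 : ι z = y := by
      apply frobenius_inj A.Ω p
      rw [frobenius_def, frobenius_def, ← map_pow, hz, hya]
    refine ⟨⟨z, ?_⟩, Subtype.ext hz⟩
    rw [Subfield.mem_comap, h1]
    exact hy
  exact PerfectRing.toPerfectField _ p

variable {p : ℕ} [Fact p.Prime] {A B : PM}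

theorem step_hom (hA : AG p A) (hB : AG p B) (hs : Satur B.M B.O) (s : St A B) {x : A.Ω}
    (hx : x ∈ A.M) (hx' : x ∉ s.i.range) :
    ∃ (s' : St A B.ult) (κ : s.k →+* s'.k), (∀ a, s'.i (κ a) = s.i a) ∧
      (∀ a, s'.j (κ a) = B.diag (s.j a)) ∧ x ∈ s'.i.range := by
  classical
  let := s.i.toAlgebra
  have := hA.ac
  have := hA.alg
  have := hA.good.perfect
  obtain ⟨T, x₁, hx₁, hac, halg, -, hcnt⟩ := exists_acl1 (k := s.k) x
  have := hcnt inferInstance
  let ι : T →+* A.Ω := algebraMap T A.Ω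
  have hι : ∀ a, ι (algebraMap s.k T a) = s.i a := fun _ => rfl
  have hkalg : Algebra.IsAlgebraic ((A.M.comap ι).comap (algebraMap s.k T)) s.k := s.alg
  have hxL : x₁ ∈ A.M.comap ι := by
    rw [← hx₁] at hx
    exact hx
  have hL := STEP_alg (A.M.comap ι) hxL hkalg halg
  have := STEP_perf hA.good ι
  obtain ⟨r, hr, hri⟩ := res_hom A.M ι (A.M.comap ι) fun _ => Iff.rfl
  have hfr : FR (A.O.comap ι) := fr_step halg s.fr
  obtain ⟨g, hg⟩ := exists_surjective_nat T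
  have hO : ∀ τ : T ≃ₐ[A.M.comap ι] T, VP (A.O.comap ι) (A.O.comap ι) τ := fun τ a => by
    obtain ⟨σ, rfl⟩ := hr τ
    change ι (r σ a) ∈ A.O ↔ ι a ∈ A.O
    rw [hri]
    exact hA.hensel σ _
  have htame : ∀ τ : T ≃ₐ[A.M.comap ι] T, (∀ a, τ (algebraMap s.k T a) = algebraMap s.k T a) →
      ∀ a, ∃ m : ℕ, τ^[p ^ m] a = a := fun τ hτ a => by
    obtain ⟨σ, rfl⟩ := hr τ
    obtain ⟨m, hm⟩ := hA.tame s.i ⟨s.t, s.ti⟩ σ (fun b => by rw [← hι, ← hri, hτ]) (ι a)
    exact ⟨m, ι.injective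
      ((Function.Semiconj.iterate_right (f := ι) (hri σ) (p ^ m) a).trans hm)⟩
  have key : ∀ N : ℕ, ∃ J : T →+* B.Ω, (∀ a, J (algebraMap s.k T a) = s.j a) ∧
      (∀ a ∈ (Finset.range N).image g, J a ∈ B.M ↔ a ∈ A.M.comap ι) ∧
      ∀ a ∈ (Finset.range N).image g, J a ∈ B.O ↔ a ∈ A.O.comap ι := fun N => by
    by_cases hres : Res s.k (A.O.comap ι) Set.univ
    · choose φ hφ hφ' using STEP_phi hres B.O s.j s.hO
      obtain ⟨J, h1, h2, h3⟩ := fl (A.M.comap ι) (A.O.comap ι) hxL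
        (fun a ha => hx' ⟨a, by rw [← hι, ← ha]; exact hx₁⟩) halg hkalg hO htame hres hfr hB hs s.j
        s.hM s.hO ⟨s.t, s.tj⟩ ((Finset.range N).image g) (((Finset.range N).image g).image φ)
        fun a ha => by
          obtain ⟨n, -, rfl⟩ := Finset.mem_image.1 ha
          exact hφ _
      exact ⟨J, h1, h2, fun a ha => hφ' a J h1 (h3 _ (Finset.mem_image_of_mem _ ha))⟩
    · refine fl3 (A.M.comap ι) (A.O.comap ι) halg hkalg hO (fun τ a ha => ?_) htame hres hB hs s.j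
        s.hM s.hO ⟨s.t, s.tj⟩ _
      obtain ⟨σ, rfl⟩ := hr τ
      rw [← (vp_comap A.O ι).lt_one, map_sub, hri]
      exact hA.fixres σ ha
  choose J hJ hJM hJO using key
  have hev : ∀ n : ℕ, ∀ᶠ N in (hyperfilter ℕ : Filter ℕ), n ∈ Finset.range N := fun n =>
    ((eventually_gt_atTop n).filter_mono Nat.hyperfilter_le_atTop).mono fun _ h =>
      Finset.mem_range.2 h
  have hd : ∀ a, ultHom J (algebraMap s.k T a) = B.diag (s.j a) := fun a =>
    congrArg (fun f : ℕ → B.Ω => (f : UP B.Ω)) (funext fun N => hJ N a)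
  refine ⟨{ k := T, i := ι, j := ultHom J, hM := fun a => ?_, hO := fun a => ?_,
            t := algebraMap s.k T s.t, ti := s.ti, tj := ?_, alg := hL, fr := hfr },
    algebraMap s.k T, hι, hd, x₁, hx₁⟩
  · obtain ⟨n, rfl⟩ := hg a
    exact ((mem_ultM _ _).trans ((eventually_congr ((hev n).mono fun N h =>
      hJM N _ (Finset.mem_image_of_mem _ h))).trans eventually_const)).symm
  · obtain ⟨n, rfl⟩ := hg a
    exact ((mem_ultO _ _).trans ((eventually_congr ((hev n).mono fun N h =>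
      hJO N _ (Finset.mem_image_of_mem _ h))).trans eventually_const)).symm
  · rw [hd, s.tj]
    rfl

theorem step (hA : AG p A) (hB : AG p B) (s : St A B) {x : A.Ω} (hx : x ∈ A.M) :
    ∃ (B' : PM) (e : B.Ω →+* B'.Ω), AG p B' ∧ Elem B B' e ∧
      ∃ (s' : St A B') (κ : s.k →+* s'.k), (∀ a, s'.i (κ a) = s.i a) ∧
        (∀ a, s'.j (κ a) = e (s.j a)) ∧ x ∈ s'.i.range := by
  by_cases hx' : x ∈ s.i.range
  · exact ⟨B, RingHom.id _, hB, fun _ _ => Iff.rfl, s, RingHom.id _, fun _ => rfl, fun _ => rfl,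
      hx'⟩
  obtain ⟨C, e, -, hC, he, -, -, -, hsat⟩ := exists_sat hB
  let s₁ : St A C :=
    { k := s.k, i := s.i, j := e.comp s.j, hM := fun a => (s.hM a).trans (he.mem _).symm,
      hO := fun a => (s.hO a).trans (he.vp _).symm, t := s.t, ti := s.ti,
      tj := (congrArg e s.tj).trans he.map_t, alg := s.alg, fr := s.fr }
  obtain ⟨s₂, κ, hi, hj, hx₂⟩ := step_hom hA hC hsat s₁ hx hx'
  obtain ⟨D, e₂, e₃, hD, he₂, he₃, hd, hrg, -⟩ := exists_sat hC
  obtain ⟨J, hJ⟩ := STEP_fac s₂.j e₃ fun a =>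
    hrg _ (STEP_map s₂.j (fun b hb => (s₂.hM b).1 hb) (s₂.alg.isAlgebraic a))
  refine ⟨D, e₂.comp e, hD, he.comp he₂,
    { k := s₂.k, i := s₂.i, j := J, hM := fun a => (s₂.hM a).trans ?_,
      hO := fun a => (s₂.hO a).trans ?_, t := s₂.t, ti := s₂.ti, tj := e₃.injective ?_,
      alg := s₂.alg, fr := s₂.fr }, κ, hi, fun a => e₃.injective ?_, hx₂⟩
  · rw [← hJ]
    exact he₃.mem _
  · rw [← hJ]
    exact he₃.vp _
  · rw [hJ, s₂.tj, he₃.map_t]
  · exact (hJ _).trans ((hj a).trans (RingHom.congr_fun hd _).symm)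

end Pool.Agent.PA
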